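import Pool.Agent.U3.UC.Defs

/-!
# Chow-Kunneth decompositions of Chow motives and Murre's conditions: definitions
-/

set_option autoImplicit false

open CategoryTheory AlgebraicGeometry

universe u v w

namespace Pool.Agent.U3.UC

open Pool.Agent.H914 Pool.Agent.H914.VarClass Pool.Agent.H914.VarClass.Obj Pool.Agent.W492.BB
  Pool.Agent.W550.Corr Pool.Agent.TH133 Pool.Agent.U3.SD

variable {k : Type u} [Field k] {𝒱 : VarClass k}
variable {C : TheoryData.{u, v, 0} 𝒱 ℚ} {K : Type w} [Field K] (H : WeilTheoryData.{u, v, w} C K)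

/-- A Chow-Kunneth decomposition of the Chow motive `M = (X, p, n)`: a finite direct sum
decomposition `M = ⊕ M_i`, `M_i = (X, π i, n)`, `i ∈ ℤ`, with `H_*(M_i) = H_i(M)`. Here
`H_i(M) = p_* H_(i - 2 n)(X)` and `H_j(X) = H^(2 dim X - j)(X)`. -/
structure IsMotiveCK {X : 𝒱.Obj} (p : C.A (X.prod X)) (n : ℤ) (π : ℤ → C.A (X.prod X)) :
    Prop where
  finite : {i | π i ≠ 0}.Finite
  deg : ∀ i, C.Deg X.dim (π i)
  idem : ∀ i, C.comp (π i) (π i) = π i
  orth : ∀ i j, i ≠ j → C.comp (π i) (π j) = 0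
  sum : finsum (fun i => π i) = p
  act_self : ∀ (i : ℤ) (a : H.A X), H.Deg (2 * X.dim - (i - 2 * n)) a →
    H.act (H.cl (π i)) a = H.act (H.cl p) a
  act_ne : ∀ (i m : ℤ) (a : H.A X), m ≠ 2 * X.dim - (i - 2 * n) → H.Deg m a →
    H.act (H.cl (π i)) a = 0

/-- The class `z` lies in `CH_l(X) = CH^(dim X - l)(X)`. -/
abbrev CycleDim (C : TheoryData.{u, v, 0} 𝒱 ℚ) {X : 𝒱.Obj} (l : ℤ) (z : C.A X) : Prop :=
  C.Deg ((X.dim : ℤ) - l) z

/-- Murre's condition (B) for `l`-dimensional cycles and the decomposition `M = ⊕ M_i`,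
`M_i = (X, π i, n)`: `CH_l(M_i) = (π i)_* CH_(l - n)(X)` is zero for all `i < 2 l`. -/
def MurreBFor (C : TheoryData.{u, v, 0} 𝒱 ℚ) {X : 𝒱.Obj} (n : ℤ) (π : ℤ → C.A (X.prod X))
    (l : ℤ) : Prop :=
  ∀ i : ℤ, i < 2 * l → ∀ z : C.A X, CycleDim C (l - n) z → C.act (π i) z = 0

/-- Murre's condition (D) for `l`-dimensional cycles and the decomposition `M = ⊕ M_i`,
`M_i = (X, π i, n)`: `CH_l(M_(2 l))_hom = (π (2 l))_* (CH_(l - n)(X)_hom)` is zero. -/
def MurreDFor {X : 𝒱.Obj} (n : ℤ) (π : ℤ → C.A (X.prod X)) (l : ℤ) : Prop :=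
  ∀ z : C.A X, CycleDim C (l - n) z → H.cl z = 0 → C.act (π (2 * l)) z = 0

/-- Every direct factor `(X, q, n)` of `M = (X, p, n)` without cohomology (`q` is idempotent and
homologically trivial, `p ∘ q = q = q ∘ p`) satisfies `CH_l(X, q, n) = q_* CH_(l - n)(X) = 0`. -/
def PhantomsVanish {X : 𝒱.Obj} (p : C.A (X.prod X)) (n l : ℤ) : Prop :=
  ∀ q : C.A (X.prod X), IsPhantom H q → C.comp p q = q → C.comp q p = q →
    ∀ z : C.A X, CycleDim C (l - n) z → C.act q z = 0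

end Pool.Agent.U3.UC
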