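import Pool.Agent.U3.UC.Ring

/-!
# Classification of the lifts of a family of idempotents in a corner
-/

set_option autoImplicit false
set_option linter.unusedSectionVars false
set_option linter.unusedSimpArgs false

universe u v

namespace Pool.Agent.U3.UC

variable {R : Type u} [Ring R] {S : Type v} [Ring S] {ρ : R →+* S}

/-- **Classification** in the corner of `e`, with an arbitrary index set. -/
theorem classify_corner {ι : Type*} [DecidableEq ι] {P Q : ι → R} {e : R} (m : ι)
    (hP : ∀ i j, P i * P j = if i = j then P i else 0)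
    (hQ : ∀ i j, Q i * Q j = if i = j then Q i else 0) (T : Finset ι)
    (hP0 : ∀ i, i ∉ T → P i = 0) (hQ0 : ∀ i, i ∉ T → Q i = 0)
    (hPs : ∑ i ∈ T, P i = e) (hQs : ∑ i ∈ T, Q i = e) (hPQ : ∀ i, ρ (Q i) = ρ (P i))
    (hn : ∀ j, j ≠ m → ∀ x, ρ x = 0 → IsNilpotent (P j * x)) :
    ∃ (s t : R) (q : ι → R), s * t = 1 ∧ t * s = 1 ∧ ρ s = 1 ∧ s * e = e * s ∧
      (∀ i, ρ (q i) = 0 ∧ q i * q i = q i ∧ P m * q i = q i ∧ q i * P m = q i) ∧
      (∀ i, i ≠ m → s * Q i * t = P i + q i) ∧
      s * Q m * t = P m - ∑ i ∈ T.erase m, q i := by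
  have hPe : ∀ i, P i * e = P i ∧ e * P i = P i := by
    intro i
    by_cases hi : i ∈ T
    · rw [← hPs, Finset.mul_sum, Finset.sum_mul]
      constructor
      · rw [Finset.sum_eq_single i]
        · rw [hP, if_pos rfl]
        · intro j _ hj; rw [hP, if_neg (Ne.symm hj)]
        · intro h; exact absurd hi h
      · rw [Finset.sum_eq_single i]
        · rw [hP, if_pos rfl]
        · intro j _ hj; rw [hP, if_neg hj]
        · intro h; exact absurd hi h
    · rw [hP0 i hi, zero_mul, mul_zero]; exact ⟨rfl, rfl⟩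
  have hQe : ∀ i, Q i * e = Q i ∧ e * Q i = Q i := by
    intro i
    by_cases hi : i ∈ T
    · rw [← hQs, Finset.mul_sum, Finset.sum_mul]
      constructor
      · rw [Finset.sum_eq_single i]
        · rw [hQ, if_pos rfl]
        · intro j _ hj; rw [hQ, if_neg (Ne.symm hj)]
        · intro h; exact absurd hi h
      · rw [Finset.sum_eq_single i]
        · rw [hQ, if_pos rfl]
        · intro j _ hj; rw [hQ, if_neg hj]
        · intro h; exact absurd hi h
    · rw [hQ0 i hi, zero_mul, mul_zero]; exact ⟨rfl, rfl⟩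
  obtain ⟨s, t, hst, hts, hs1, h1, h2⟩ := ladder ρ P Q hP hQ hPQ (T.erase m)
    (fun j hj x hx => hn j (Finset.ne_of_mem_erase hj) x hx)
  have ht1 : ρ t = 1 := by
    have := congrArg ρ hst
    rwa [map_mul, hs1, one_mul, map_one] at this
  obtain ⟨h3, h4⟩ := h2 (1 - e) fun j _ =>
    ⟨by rw [sub_mul, one_mul, (hPe j).2, sub_self], by rw [mul_sub, mul_one, (hPe j).1, sub_self],
      by rw [sub_mul, one_mul, (hQe j).2, sub_self], by rw [mul_sub, mul_one, (hQe j).1, sub_self]⟩
  have hse : s * e = e * s := by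
    have e1 : s - s * e = s - e * s := by
      rw [mul_sub, mul_one] at h3
      rw [sub_mul, one_mul] at h4
      rw [h3, h4]
    exact sub_right_inj.1 e1
  have hte : t * e = e * t := by
    calc t * e = t * e * (s * t) := by rw [hst, mul_one]
      _ = t * (e * s) * t := by simp only [mul_assoc]
      _ = (t * s) * e * t := by rw [← hse]; simp only [mul_assoc]
      _ = e * t := by rw [hts, one_mul]
  set G : ι → R := fun n => s * Q n * t with hG
  have hGG : ∀ i j, G i * G j = if i = j then G i else 0 := by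
    intro i j
    have : G i * G j = s * (Q i * Q j) * t := by
      calc G i * G j = s * Q i * (t * s) * Q j * t := by simp only [hG, mul_assoc]
        _ = s * (Q i * Q j) * t := by rw [hts, mul_one]; simp only [mul_assoc]
    rw [this, hQ]
    split_ifs
    · rfl
    · rw [mul_zero, zero_mul]
  have hGs : ∑ i ∈ T, G i = e := by
    simp only [hG]
    rw [← Finset.sum_mul, ← Finset.mul_sum, hQs, hse, mul_assoc, hst, mul_one]
  have hGe : ∀ i, G i * e = G i ∧ e * G i = G i := by
    intro i
    constructor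
    · calc G i * e = s * Q i * (t * e) := by simp only [hG, mul_assoc]
        _ = s * (Q i * e) * t := by rw [hte]; simp only [mul_assoc]
        _ = G i := by rw [(hQe i).1]
    · calc e * G i = (e * s) * Q i * t := by simp only [hG, mul_assoc]
        _ = s * (e * Q i) * t := by rw [← hse]; simp only [mul_assoc]
        _ = G i := by rw [(hQe i).2]
  have hρG : ∀ n, ρ (G n) = ρ (P n) := fun n => by
    simp only [hG]; rw [map_mul, map_mul, hs1, ht1, one_mul, mul_one, hPQ]
  have hPG : ∀ j, j ≠ m → P j * G j = P j ∧ G j * P j = P j := by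
    intro j hj
    by_cases hjT : j ∈ T
    · exact h1 j (Finset.mem_erase.2 ⟨hj, hjT⟩)
    · rw [hP0 j hjT, zero_mul, mul_zero]
      exact ⟨rfl, rfl⟩
  have hPGn : ∀ j, j ≠ m → ∀ i, i ≠ j → P j * G i = 0 ∧ G i * P j = 0 := by
    intro j hj i hij
    constructor
    · rw [← (hPG j hj).1, mul_assoc, hGG, if_neg (Ne.symm hij), mul_zero]
    · rw [← (hPG j hj).2, ← mul_assoc, hGG, if_neg hij, zero_mul]
  set q : ι → R := fun n => if n = m then 0 else G n - P n with hq
  have q0 : q m = 0 := by simp [hq]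
  have q1 : ∀ n, n ≠ m → q n = G n - P n := fun n hn' => by simp only [hq]; rw [if_neg hn']
  have hPq : ∀ j, j ≠ m → ∀ i, P j * q i = 0 ∧ q i * P j = 0 := by
    intro j hj i
    by_cases hi : i = m
    · rw [hi, q0, mul_zero, zero_mul]; exact ⟨rfl, rfl⟩
    · rw [q1 i hi]
      by_cases hij : i = j
      · rw [hij, mul_sub, sub_mul, (hPG j hj).1, (hPG j hj).2, hP, if_pos rfl, sub_self]
        exact ⟨rfl, rfl⟩
      · rw [mul_sub, sub_mul, (hPGn j hj i hij).1, (hPGn j hj i hij).2, hP, hP,
          if_neg (Ne.symm hij), if_neg hij, sub_self]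
        exact ⟨rfl, rfl⟩
  have hqe : ∀ n, q n * e = q n ∧ e * q n = q n := by
    intro n
    by_cases hn' : n = m
    · rw [hn', q0, zero_mul, mul_zero]; exact ⟨rfl, rfl⟩
    · rw [q1 n hn', sub_mul, mul_sub, (hGe n).1, (hGe n).2, (hPe n).1, (hPe n).2]
      exact ⟨rfl, rfl⟩
  have hleft : ∀ n, P m * q n = q n := by
    intro n
    have e1 : ∑ i ∈ T, P i * q n = q n := by rw [← Finset.sum_mul, hPs, (hqe n).2]
    by_cases hmT : m ∈ T
    · conv_rhs => rw [← e1]
      rw [Finset.sum_eq_single m]
      · intro j _ hj; exact (hPq j hj n).1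
      · intro h; exact absurd hmT h
    · have e2 : q n = 0 := by
        rw [← e1]
        exact Finset.sum_eq_zero fun j hj => (hPq j (fun h => hmT (h ▸ hj)) n).1
      rw [e2, mul_zero]
  have hright : ∀ n, q n * P m = q n := by
    intro n
    have e1 : ∑ i ∈ T, q n * P i = q n := by rw [← Finset.mul_sum, hPs, (hqe n).1]
    by_cases hmT : m ∈ T
    · conv_rhs => rw [← e1]
      rw [Finset.sum_eq_single m]
      · intro j _ hj; exact (hPq j hj n).2
      · intro h; exact absurd hmT h
    · have e2 : q n = 0 := by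
        rw [← e1]
        exact Finset.sum_eq_zero fun j hj => (hPq j (fun h => hmT (h ▸ hj)) n).2
      rw [e2, zero_mul]
  have hqq : ∀ i, q i * q i = q i := by
    intro i
    by_cases hi : i = m
    · rw [hi, q0, zero_mul]
    · have e1 : q i * q i = q i * G i := by
        conv_lhs => rw [q1 i hi]
        rw [mul_sub, ← q1 i hi, (hPq i hi i).2, sub_zero]
      have e2 : q i * G i = G i * G i - P i * G i := by rw [q1 i hi, sub_mul]
      rw [e1, e2, hGG, if_pos rfl, (hPG i hi).1, q1 i hi]
  have hqker : ∀ n, ρ (q n) = 0 := by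
    intro n
    by_cases hn' : n = m
    · rw [hn', q0, map_zero]
    · rw [q1 n hn', map_sub, hρG, sub_self]
  refine ⟨s, t, q, hst, hts, hs1, hse, fun i => ⟨hqker i, hqq i, hleft i, hright i⟩,
    fun n hn' => ?_, ?_⟩
  · rw [q1 n hn']
    change G n = _
    abel
  · change G m = _
    have e4 : ∑ i ∈ T.erase m, q i = ∑ i ∈ T.erase m, G i - ∑ i ∈ T.erase m, P i := by
      rw [← Finset.sum_sub_distrib]
      exact Finset.sum_congr rfl fun i hi => q1 i (Finset.ne_of_mem_erase hi)
    by_cases hmT : m ∈ T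
    · have e1 : G m + ∑ i ∈ T.erase m, G i = e := by
        rw [Finset.add_sum_erase _ _ hmT, hGs]
      have e2 : P m + ∑ i ∈ T.erase m, P i = e := by
        rw [Finset.add_sum_erase _ _ hmT, hPs]
      rw [e4, eq_sub_of_add_eq e1, eq_sub_of_add_eq e2]
      abel
    · have e5 : G m = 0 := by simp only [hG]; rw [hQ0 m hmT, mul_zero, zero_mul]
      rw [e4, Finset.erase_eq_of_notMem hmT, hGs, hPs, e5, hP0 m hmT]
      abel

/-- A homologically trivial idempotent in the corner of `e` can be conjugated into `P m R P m`. -/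
theorem phantom_corner {ι : Type*} [DecidableEq ι] {P : ι → R} {e : R} {m : ι}
    (hP : ∀ i j, P i * P j = if i = j then P i else 0) (T : Finset ι) (hmT : m ∈ T)
    (hP0 : ∀ i, i ∉ T → P i = 0) (hPs : ∑ i ∈ T, P i = e)
    (hn : ∀ j, j ≠ m → ∀ x, ρ x = 0 → IsNilpotent (P j * x)) {p : R} (hp : p * p = p)
    (hρ : ρ p = 0) (hpe : p * e = p) (hep : e * p = p) :
    ∃ s t : R, s * t = 1 ∧ t * s = 1 ∧ ρ s = 1 ∧
      P m * (s * p * t) = s * p * t ∧ (s * p * t) * P m = s * p * t := by
  have hPe : ∀ i, P i * e = P i ∧ e * P i = P i := by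
    intro i
    by_cases hi : i ∈ T
    · rw [← hPs, Finset.mul_sum, Finset.sum_mul]
      constructor
      · rw [Finset.sum_eq_single i]
        · rw [hP, if_pos rfl]
        · intro j _ hj; rw [hP, if_neg (Ne.symm hj)]
        · intro h; exact absurd hi h
      · rw [Finset.sum_eq_single i]
        · rw [hP, if_pos rfl]
        · intro j _ hj; rw [hP, if_neg hj]
        · intro h; exact absurd hi h
    · rw [hP0 i hi, zero_mul, mul_zero]; exact ⟨rfl, rfl⟩
  obtain ⟨s, t, hst, hts, hs1, h1, h2⟩ := push_phantom ρ P hP hp hρ (T.erase m)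
    (fun j hj x hx => hn j (Finset.ne_of_mem_erase hj) x hx)
  obtain ⟨h3, h4⟩ := h2 (1 - e) (fun j _ =>
    ⟨by rw [sub_mul, one_mul, (hPe j).2, sub_self],
      by rw [mul_sub, mul_one, (hPe j).1, sub_self]⟩)
    (by rw [sub_mul, mul_sub, one_mul, mul_one, hpe, hep])
  have h5 : t * (1 - e) = 1 - e := by
    conv_lhs => rw [← h3]
    rw [← mul_assoc, hts, one_mul]
  have h6 : (s * p * t) * e = s * p * t := by
    have : (s * p * t) * (1 - e) = 0 := by
      rw [mul_assoc, h5, mul_assoc, mul_sub, mul_one, hpe, sub_self, mul_zero]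
    rw [mul_sub, mul_one, sub_eq_zero] at this
    exact this.symm
  have h7 : e * (s * p * t) = s * p * t := by
    have : (1 - e) * (s * p * t) = 0 := by
      rw [← mul_assoc, ← mul_assoc, h4, sub_mul, one_mul, hep, sub_self, zero_mul]
    rw [sub_mul, one_mul, sub_eq_zero] at this
    exact this.symm
  refine ⟨s, t, hst, hts, hs1, ?_, ?_⟩
  · have e1 : ∑ i ∈ T, P i * (s * p * t) = s * p * t := by
      rw [← Finset.sum_mul, hPs, h7]
    conv_rhs => rw [← e1]
    rw [Finset.sum_eq_single m]
    · intro j hj hjm; exact (h1 j (Finset.mem_erase.2 ⟨hjm, hj⟩)).1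
    · intro h; exact absurd hmT h
  · have e1 : ∑ i ∈ T, (s * p * t) * P i = s * p * t := by
      rw [← Finset.mul_sum, hPs, h6]
    conv_rhs => rw [← e1]
    rw [Finset.sum_eq_single m]
    · intro j hj hjm; exact (h1 j (Finset.mem_erase.2 ⟨hjm, hj⟩)).2
    · intro h; exact absurd hmT h

end Pool.Agent.U3.UC
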