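import Pool.Agent.U3.UC.Geo3
import Pool.Agent.U3.UC.MotDefs
import Pool.Agent.U3.UC.MotRing

/-!
# Murre's conditions (B) and (D) for all Chow-Kunneth decompositions of a motive
-/

set_option autoImplicit false
set_option linter.unusedSectionVars false

open CategoryTheory AlgebraicGeometry

universe u v w

namespace Pool.Agent.U3.UC

open Pool.Agent.H914 Pool.Agent.H914.VarClass Pool.Agent.H914.VarClass.Obj Pool.Agent.W492.BB
  Pool.Agent.W550.Corr Pool.Agent.TH133 Pool.Agent.U3.SD

variable {k : Type u} [Field k] {𝒱 : VarClass k} {C : TheoryData.{u, v, 0} 𝒱 ℚ}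
  [hC : IsChowProj C] {K : Type w} [Field K]
  {H : WeilTheoryData.{u, v, w} C K} [hH : IsWeilProj H] {X Y Z W : 𝒱.Obj}

include hC hH

variable {p : C.A (X.prod X)} {n : ℤ} {π π' : ℤ → C.A (X.prod X)}

/-- The family of a decomposition in the ring of degree zero correspondences. -/
noncomputable def mfam (h : IsMotiveCK H p n π) : ℤ → cor0 C X := fun i => ⟨π i, h.deg i⟩

lemma mfam_mul (h : IsMotiveCK H p n π) (i j : ℤ) :
    mfam h i * mfam h j = if i = j then mfam h i else 0 := by
  apply Subtype.ext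
  by_cases hij : i = j
  · rw [if_pos hij, hij]
    exact h.idem j
  · rw [if_neg hij]
    exact h.orth j i (Ne.symm hij)

lemma coe_sum' (s : Finset ℤ) (f : ℤ → cor0 C X) :
    ((∑ i ∈ s, f i : cor0 C X) : Cor C X) = ∑ i ∈ s, (f i : Cor C X) :=
  map_sum (cor0 C X).subtype f s

lemma msum (h : IsMotiveCK H p n π) {T : Finset ℤ} (hT : ∀ i, i ∉ T → π i = 0) :
    ∑ i ∈ T, π i = p := by
  rw [← h.sum, finsum_eq_sum_of_support_subset]
  intro i hi
  by_contra h'
  exact hi (hT i h')

lemma mp_mem (h : IsMotiveCK H p n π) : (p : C.A (X.prod X)) ∈ C.gr (X.prod X) X.dim := by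
  rw [← msum h (T := h.finite.toFinset) (fun i hi => by
    by_contra h'
    exact hi ((h.finite.mem_toFinset).2 h'))]
  exact Submodule.sum_mem _ fun i _ => h.deg i

/-- The idempotent `p` in the ring. -/
noncomputable def mp (h : IsMotiveCK H p n π) : cor0 C X := ⟨p, mp_mem h⟩

lemma mfam_sum (h : IsMotiveCK H p n π) {T : Finset ℤ} (hT : ∀ i, i ∉ T → π i = 0) :
    ∑ i ∈ T, mfam h i = mp h := by
  apply Subtype.ext
  rw [coe_sum' (H := H)]
  exact msum h hT

lemma mfam_rho (h : IsMotiveCK H p n π) (h' : IsMotiveCK H p n π') (i : ℤ) :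
    rhoH H X (mfam h' i) = rhoH H X (mfam h i) := by
  apply ext_gr H
  intro m x hx
  by_cases hm : m = 2 * X.dim - (i - 2 * n)
  · subst hm
    exact (h'.act_self i x hx).trans (h.act_self i x hx).symm
  · exact (h'.act_ne i m x hm hx).trans (h.act_ne i m x hm hx).symm

/-- A family in the ring with the right sum and cohomology is a decomposition. -/
lemma isMotiveCK_of (h : IsMotiveCK H p n π) (Q : ℤ → cor0 C X) (T : Finset ℤ)
    (hQ0 : ∀ i, i ∉ T → Q i = 0) (hQ : ∀ i j, Q i * Q j = if i = j then Q i else 0)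
    (hs : ∑ i ∈ T, Q i = mp h) (hρ : ∀ i, rhoH H X (Q i) = rhoH H X (mfam h i)) :
    IsMotiveCK H p n (fun i => ((Q i : cor0 C X) : Cor C X)) where
  finite := by
    refine (Finset.finite_toSet T).subset fun i hi => ?_
    by_contra h'
    apply hi
    rw [hQ0 i h']
    rfl
  deg i := (Q i).2
  idem i := by
    have := hQ i i
    rw [if_pos rfl] at this
    exact congrArg (fun x : cor0 C X => (x : Cor C X)) this
  orth i j hij := by
    have := hQ j i
    rw [if_neg (Ne.symm hij)] at this
    exact congrArg (fun x : cor0 C X => (x : Cor C X)) this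
  sum := by
    rw [finsum_eq_sum_of_support_subset (s := T)]
    · have h1 : ((∑ i ∈ T, Q i : cor0 C X) : Cor C X) = p :=
        congrArg (fun x : cor0 C X => (x : Cor C X)) hs
      rw [coe_sum' (H := H)] at h1
      exact h1
    · intro i hi
      by_contra h'
      apply hi
      change ((Q i : cor0 C X) : Cor C X) = 0
      rw [hQ0 i h']
      rfl
  act_self i a ha := (LinearMap.congr_fun (hρ i) a).trans (h.act_self i a ha)
  act_ne i m a hm ha := (LinearMap.congr_fun (hρ i) a).trans (h.act_ne i m a hm ha)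

lemma msmall (h : IsMotiveCK H p n π) {m : ℤ} (hn : ∀ i, i ≠ m → HomNil H (π i)) (j : ℤ)
    (hj : j ≠ m) (x : cor0 C X) (hx : rhoH H X x = 0) : IsNilpotent (mfam h j * x) :=
  homNil_rho (hn j hj) x hx

/-- A phantom can be moved from the degree `m` to the degree `j`. -/
lemma isMotiveCK_move (h : IsMotiveCK H p n π) {m j : ℤ} (hjm : j ≠ m) {q : cor0 C X}
    (hqq : q * q = q) (hqρ : rhoH H X q = 0) (h1 : mfam h m * q = q) (h2 : q * mfam h m = q) :
    ∃ π' : ℤ → C.A (X.prod X), ∃ h' : IsMotiveCK H p n π', mfam h' j = mfam h j + q := by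
  classical
  set P := mfam h with hP
  have hPq : ∀ i, i ≠ m → P i * q = 0 ∧ q * P i = 0 := by
    intro i hi
    constructor
    · rw [← h1, ← mul_assoc, mfam_mul, if_neg hi, zero_mul]
    · rw [← h2, mul_assoc, mfam_mul, if_neg (Ne.symm hi), mul_zero]
  set Q : ℤ → cor0 C X := fun i => P i + (if i = j then q else 0) - (if i = m then q else 0)
    with hQ
  have Qm : Q m = P m - q := by
    change P m + (if m = j then q else 0) - (if m = m then q else 0) = _
    rw [if_neg (Ne.symm hjm), if_pos rfl, add_zero]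
  have Qj : Q j = P j + q := by
    change P j + (if j = j then q else 0) - (if j = m then q else 0) = _
    rw [if_neg hjm, if_pos rfl, sub_zero]
  have Qi : ∀ i, i ≠ m → i ≠ j → Q i = P i := by
    intro i hi hi'
    simp only [hQ]
    rw [if_neg hi, if_neg hi', sub_zero, add_zero]
  have hPm : P m * P m = P m := by rw [mfam_mul, if_pos rfl]
  have hPj : P j * P j = P j := by rw [mfam_mul, if_pos rfl]
  have hPmj : P m * P j = 0 := by rw [mfam_mul, if_neg (Ne.symm hjm)]
  have hPjm : P j * P m = 0 := by rw [mfam_mul, if_neg hjm]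
  have hQQ : ∀ a b, Q a * Q b = if a = b then Q a else 0 := by
    intro a b
    by_cases ha : a = m
    · by_cases hb : b = m
      · rw [if_pos (ha.trans hb.symm), ha, hb, Qm, mul_sub, sub_mul, sub_mul, hPm, h1, h2, hqq]
        abel
      · rw [if_neg (fun e : a = b => hb (e.symm.trans ha)), ha, Qm]
        by_cases hb' : b = j
        · rw [hb', Qj, mul_add, sub_mul, sub_mul, hPmj, (hPq j hjm).2, h1, hqq]
          abel
        · rw [Qi b hb hb', sub_mul, (hPq b hb).2, mfam_mul, if_neg (Ne.symm hb)]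
          abel
    · by_cases hb : b = m
      · rw [if_neg (fun e : a = b => ha (e.trans hb)), hb, Qm]
        by_cases ha' : a = j
        · rw [ha', Qj, mul_sub, add_mul, add_mul, hPjm, (hPq j hjm).1, h2, hqq]
          abel
        · rw [Qi a ha ha', mul_sub, (hPq a ha).1, mfam_mul, if_neg ha]
          abel
      · by_cases ha' : a = j
        · by_cases hb' : b = j
          · rw [if_pos (ha'.trans hb'.symm), ha', hb', Qj, mul_add, add_mul, add_mul, hPj,
              (hPq j hjm).1, (hPq j hjm).2, hqq]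
            abel
          · rw [if_neg (fun e : a = b => hb' (e.symm.trans ha')), ha', Qj, Qi b hb hb', add_mul,
              (hPq b hb).2, mfam_mul, if_neg (Ne.symm hb')]
            abel
        · by_cases hb' : b = j
          · rw [if_neg (fun e : a = b => ha' (e.trans hb')), hb', Qj, Qi a ha ha', mul_add,
              (hPq a ha).1, mfam_mul, if_neg ha']
            abel
          · rw [Qi a ha ha', Qi b hb hb', mfam_mul]
  set T : Finset ℤ := insert m (insert j h.finite.toFinset) with hT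
  have hT0 : ∀ i, i ∉ T → π i = 0 := by
    intro i hi
    by_contra h'
    exact hi (Finset.mem_insert_of_mem (Finset.mem_insert_of_mem ((h.finite.mem_toFinset).2 h')))
  have hmT : m ∈ T := Finset.mem_insert_self _ _
  have hjT : j ∈ T := Finset.mem_insert_of_mem (Finset.mem_insert_self _ _)
  have hQ0 : ∀ i, i ∉ T → Q i = 0 := by
    intro i hi
    rw [Qi i (fun e => hi (e ▸ hmT)) (fun e => hi (e ▸ hjT))]
    exact Subtype.ext (hT0 i hi)
  have hQs : ∑ i ∈ T, Q i = mp h := by
    simp only [hQ]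
    rw [Finset.sum_sub_distrib, Finset.sum_add_distrib, mfam_sum h hT0, Finset.sum_ite_eq',
      Finset.sum_ite_eq', if_pos hjT, if_pos hmT]
    abel
  have hρ : ∀ i, rhoH H X (Q i) = rhoH H X (P i) := by
    intro i
    simp only [hQ]
    rw [map_sub, map_add]
    have e1 : ∀ b : Prop, ∀ _ : Decidable b, rhoH H X (if b then q else 0) = 0 := by
      intro b hb
      split_ifs
      · exact hqρ
      · exact map_zero _
    rw [e1, e1, add_zero, sub_zero]
  exact ⟨_, isMotiveCK_of h Q T hQ0 hQQ hQs hρ, Qj⟩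

/-- The main step: phantoms of `M` act trivially if those in the middle do. -/
lemma vanish_of_middle (h : IsMotiveCK H p n π) {m : ℤ} (hn : ∀ i, i ≠ m → HomNil H (π i))
    {c : ℤ} (hq : ∀ q : cor0 C X, q * q = q → rhoH H X q = 0 → mfam h m * q = q →
      q * mfam h m = q → ∀ z ∈ C.gr X c, sg C X q z = 0)
    (q₀ : C.A (X.prod X)) (hq0 : IsPhantom H q₀) (hpq : C.comp p q₀ = q₀)
    (hqp : C.comp q₀ p = q₀) (z : C.A X) (hz : z ∈ C.gr X c) : C.act q₀ z = 0 := by
  classical
  set p0 : cor0 C X := ⟨q₀, hq0.deg⟩ with hp0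
  have hpp : p0 * p0 = p0 := Subtype.ext hq0.idem
  have hpρ : rhoH H X p0 = 0 := (rho_zero_iff p0).2 hq0.cl
  have he1 : p0 * mp h = p0 := Subtype.ext hpq
  have he2 : mp h * p0 = p0 := Subtype.ext hqp
  set T : Finset ℤ := insert m h.finite.toFinset with hT
  have hT0 : ∀ i, i ∉ T → π i = 0 := by
    intro i hi
    by_contra h'
    exact hi (Finset.mem_insert_of_mem ((h.finite.mem_toFinset).2 h'))
  obtain ⟨s, t, h1, h2, h3, h4, h5⟩ := phantom_corner (ρ := rhoH H X) (m := m) (mfam_mul h) T
    (Finset.mem_insert_self _ _) (fun i hi => Subtype.ext (hT0 i hi)) (mfam_sum h hT0)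
    (msmall h hn) hpp hpρ he1 he2
  set q : cor0 C X := s * p0 * t with hqd
  have hqq : q * q = q := by
    calc q * q = s * p0 * (t * s) * p0 * t := by rw [hqd]; simp only [mul_assoc]
      _ = s * (p0 * p0) * t := by rw [h2, mul_one]; simp only [mul_assoc]
      _ = q := by rw [hpp]
  have hqρ : rhoH H X q = 0 := by rw [hqd, map_mul, map_mul, hpρ, mul_zero, zero_mul]
  have e1 : p0 = t * q * s := by
    calc p0 = (t * s) * p0 * (t * s) := by rw [h2, one_mul, mul_one]
      _ = t * q * s := by rw [hqd]; simp only [mul_assoc]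
  have e2 : sg C X p0 z = 0 := by
    rw [e1, sg_mul, sg_mul, hq q hqq hqρ h4 h5 _ (sg_mem s hz), map_zero]
  exact e2

/-- Homologically trivial operators map to homologically trivial cycles. -/
lemma cl_sg_zero {q : cor0 C X} (hq : rhoH H X q = 0) (z : C.A X) : H.cl (sg C X q z) = 0 := by
  rw [sg_apply, cl_act H]
  exact LinearMap.congr_fun hq (H.cl z)

lemma cl_sg_of_zero (q : cor0 C X) {z : C.A X} (hz : H.cl z = 0) : H.cl (sg C X q z) = 0 := by
  rw [sg_apply, cl_act H, hz]
  exact map_zero (rhoH H X q)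

/-- The operators of another decomposition on the Chow groups, if phantoms vanish. -/
lemma conj_act (h : IsMotiveCK H p n π) {m : ℤ} (hn : ∀ i, i ≠ m → HomNil H (π i)) {l : ℤ}
    (hph : PhantomsVanish H p n l) (h' : IsMotiveCK H p n π') : ∃ s t : cor0 C X, s * t = 1 ∧
      t * s = 1 ∧ ∀ (i : ℤ) (z : C.A X), z ∈ C.gr X (X.dim - (l - n)) →
        sg C X (mfam h' i) z = sg C X t (sg C X (mfam h i) (sg C X s z)) := by
  classical
  set T : Finset ℤ := h.finite.toFinset ∪ h'.finite.toFinset with hT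
  have hT0 : ∀ i, i ∉ T → π i = 0 := by
    intro i hi
    by_contra h''
    exact hi (Finset.mem_union_left _ ((h.finite.mem_toFinset).2 h''))
  have hT0' : ∀ i, i ∉ T → π' i = 0 := by
    intro i hi
    by_contra h''
    exact hi (Finset.mem_union_right _ ((h'.finite.mem_toFinset).2 h''))
  obtain ⟨s, t, q, h1, h2, h3, h4, h5, h6, h7⟩ := classify_corner (ρ := rhoH H X) m (mfam_mul h)
    (mfam_mul h') T (fun i hi => Subtype.ext (hT0 i hi)) (fun i hi => Subtype.ext (hT0' i hi))
    (mfam_sum h hT0) (mfam_sum h' hT0') (mfam_rho h h') (msmall h hn)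
  have hPp : ∀ i, mfam h i * mp h = mfam h i ∧ mp h * mfam h i = mfam h i := by
    intro i
    rw [← mfam_sum h hT0, Finset.mul_sum, Finset.sum_mul]
    by_cases hi : i ∈ T
    · constructor
      · rw [Finset.sum_eq_single i]
        · rw [mfam_mul, if_pos rfl]
        · intro j _ hj; rw [mfam_mul, if_neg (Ne.symm hj)]
        · intro h; exact absurd hi h
      · rw [Finset.sum_eq_single i]
        · rw [mfam_mul, if_pos rfl]
        · intro j _ hj; rw [mfam_mul, if_neg hj]
        · intro h; exact absurd hi h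
    · have e1 : mfam h i = 0 := Subtype.ext (hT0 i hi)
      rw [e1]
      simp
  have hq : ∀ i (z : C.A X), z ∈ C.gr X (X.dim - (l - n)) → sg C X (q i) z = 0 := by
    intro i z hz
    obtain ⟨k1, k2, k3, k4⟩ := h5 i
    refine hph ((q i : cor0 C X) : Cor C X) ⟨(q i).2,
      congrArg (fun x : cor0 C X => (x : Cor C X)) k2, (rho_zero_iff _).1 k1⟩ ?_ ?_ z hz
    · have e1 : q i * mp h = q i := by rw [← k4, mul_assoc, (hPp m).1]
      exact congrArg (fun x : cor0 C X => (x : Cor C X)) e1
    · have e1 : mp h * q i = q i := by rw [← k3, ← mul_assoc, (hPp m).2]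
      exact congrArg (fun x : cor0 C X => (x : Cor C X)) e1
  refine ⟨s, t, h1, h2, fun i z hz => ?_⟩
  have hz' : sg C X s z ∈ C.gr X (X.dim - (l - n)) := sg_mem s hz
  have e1 : sg C X (s * mfam h' i * t) (sg C X s z) = sg C X (mfam h i) (sg C X s z) := by
    by_cases hi : i = m
    · rw [hi, h7, map_sub, LinearMap.sub_apply, map_sum, LinearMap.sum_apply,
        Finset.sum_eq_zero fun j _ => hq j _ hz', sub_zero]
    · rw [h6 i hi, map_add, LinearMap.add_apply, hq i _ hz', add_zero]
  have e3 : mfam h' i = t * (s * mfam h' i * t) * s := by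
    calc mfam h' i = (t * s) * mfam h' i * (t * s) := by rw [h2, one_mul, mul_one]
      _ = t * (s * mfam h' i * t) * s := by simp only [mul_assoc]
  rw [← e1, ← sg_mul, ← sg_mul, ← e3]

/-- **(B) for all decompositions.** -/
theorem murreB_iff (h : IsMotiveCK H p n π) {m : ℤ} (hn : ∀ i, i ≠ m → HomNil H (π i)) (l : ℤ) :
    (∀ π', IsMotiveCK H p n π' → MurreBFor C n π' l) ↔
      MurreBFor C n π l ∧ PhantomsVanish H p n l := by
  constructor
  · intro hB
    refine ⟨hB π h, fun q₀ hq0 hpq hqp z hz => ?_⟩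
    refine vanish_of_middle h hn (c := X.dim - (l - n)) ?_ q₀ hq0 hpq hqp z hz
    intro q hqq hqρ h1 h2 z hz
    obtain ⟨j, hjm, hjl⟩ : ∃ j : ℤ, j ≠ m ∧ j < 2 * l := by
      by_cases hj : 2 * l - 1 = m
      · exact ⟨2 * l - 2, by omega, by omega⟩
      · exact ⟨2 * l - 1, hj, by omega⟩
    obtain ⟨π', h', hj⟩ := isMotiveCK_move h hjm hqq hqρ h1 h2
    have e1 : sg C X (mfam h' j) (sg C X q z) = 0 := hB π' h' j hjl _ (sg_mem q hz)
    rw [hj, map_add, LinearMap.add_apply, ← sg_mul, ← sg_mul, hqq] at e1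
    have e2 : mfam h j * q = 0 := by
      rw [← h1, ← mul_assoc, mfam_mul, if_neg hjm, zero_mul]
    rw [e2, map_zero, LinearMap.zero_apply, zero_add] at e1
    exact e1
  · rintro ⟨hB, hph⟩ π' h' i hi z hz
    obtain ⟨s, t, -, -, h3⟩ := conj_act h hn hph h'
    have e1 : sg C X (mfam h i) (sg C X s z) = 0 := hB i hi _ (sg_mem s hz)
    have e2 := h3 i z hz
    rw [e1, map_zero] at e2
    exact e2

/-- **(D) for all decompositions.** -/
theorem murreD_iff (h : IsMotiveCK H p n π) {m : ℤ} (hn : ∀ i, i ≠ m → HomNil H (π i)) (l : ℤ) :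
    (∀ π', IsMotiveCK H p n π' → MurreDFor H n π' l) ↔
      MurreDFor H n π l ∧ PhantomsVanish H p n l := by
  constructor
  · intro hD
    refine ⟨hD π h, fun q₀ hq0 hpq hqp z hz => ?_⟩
    refine vanish_of_middle h hn (c := X.dim - (l - n)) ?_ q₀ hq0 hpq hqp z hz
    intro q hqq hqρ h1 h2 z hz
    by_cases hm : 2 * l = m
    · have e1 : sg C X (mfam h (2 * l)) (sg C X q z) = 0 :=
        hD π h _ (sg_mem q hz) (cl_sg_zero hqρ z)
      rw [hm, ← sg_mul, h1] at e1
      exact e1
    · obtain ⟨π', h', hj⟩ := isMotiveCK_move h hm hqq hqρ h1 h2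
      have e1 : sg C X (mfam h' (2 * l)) (sg C X q z) = 0 :=
        hD π' h' _ (sg_mem q hz) (cl_sg_zero hqρ z)
      rw [hj, map_add, LinearMap.add_apply, ← sg_mul, ← sg_mul, hqq] at e1
      have e2 : mfam h (2 * l) * q = 0 := by
        rw [← h1, ← mul_assoc, mfam_mul, if_neg hm, zero_mul]
      rw [e2, map_zero, LinearMap.zero_apply, zero_add] at e1
      exact e1
  · rintro ⟨hD, hph⟩ π' h' z hz hz0
    obtain ⟨s, t, -, -, h3⟩ := conj_act h hn hph h'
    have e1 : sg C X (mfam h (2 * l)) (sg C X s z) = 0 := hD _ (sg_mem s hz) (cl_sg_of_zero s hz0)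
    have e2 := h3 (2 * l) z hz
    rw [e1, map_zero] at e2
    exact e2

end Pool.Agent.U3.UC
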