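import Pool.Agent.U3.UC.Ring

/-!
# Classification of the lifts of a complete family of idempotents
-/

set_option autoImplicit false
set_option linter.unusedSectionVars false
set_option linter.unusedSimpArgs false

universe u v

namespace Pool.Agent.U3.UC

variable {R : Type u} [Ring R] {S : Type v} [Ring S] (ρ : R →+* S)

/-- The idempotents `q n` under `P m` are moved from the degree `m` to the degrees `n`. -/
def mv (N : ℕ) (P : ℕ → R) (m : ℕ) (q : ℕ → R) : ℕ → R :=
  fun n => if n = m then P m - ∑ i ∈ Finset.range N, q i else P n + q n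

/-- A family of mutually orthogonal idempotents `q n` in `P m R P m` in the kernel of `ρ`. -/
structure IsFam (N : ℕ) (P : ℕ → R) (m : ℕ) (q : ℕ → R) : Prop where
  ker : ∀ n, ρ (q n) = 0
  mul : ∀ i j, q i * q j = if i = j then q i else 0
  left : ∀ n, P m * q n = q n
  right : ∀ n, q n * P m = q n
  self : q m = 0
  out : ∀ n, N ≤ n → q n = 0

variable {ρ}

section

variable {N : ℕ} {P Q q : ℕ → R} {m : ℕ}

lemma IsFam.sum_mul (h : IsFam ρ N P m q) {n : ℕ} (hn : n < N) :
    (∑ i ∈ Finset.range N, q i) * q n = q n := by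
  rw [Finset.sum_mul, Finset.sum_eq_single n]
  · rw [h.mul, if_pos rfl]
  · intro i _ hi
    rw [h.mul, if_neg hi]
  · intro h'; exact absurd (Finset.mem_range.2 hn) h'

lemma IsFam.mul_sum (h : IsFam ρ N P m q) {n : ℕ} (hn : n < N) :
    q n * (∑ i ∈ Finset.range N, q i) = q n := by
  rw [Finset.mul_sum, Finset.sum_eq_single n]
  · rw [h.mul, if_pos rfl]
  · intro i _ hi
    rw [h.mul, if_neg (Ne.symm hi)]
  · intro h'; exact absurd (Finset.mem_range.2 hn) h'

lemma IsFam.sum_mul' (h : IsFam ρ N P m q) (n : ℕ) :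
    (∑ i ∈ Finset.range N, q i) * q n = q n := by
  by_cases hn : n < N
  · exact h.sum_mul hn
  · rw [h.out n (by omega), mul_zero]

lemma IsFam.mul_sum' (h : IsFam ρ N P m q) (n : ℕ) :
    q n * (∑ i ∈ Finset.range N, q i) = q n := by
  by_cases hn : n < N
  · exact h.mul_sum hn
  · rw [h.out n (by omega), zero_mul]

lemma IsFam.idem (h : IsFam ρ N P m q) :
    (∑ i ∈ Finset.range N, q i) * (∑ i ∈ Finset.range N, q i) = ∑ i ∈ Finset.range N, q i := by
  conv_lhs => rw [Finset.mul_sum]
  exact Finset.sum_congr rfl fun n _ => h.sum_mul' n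

variable (hP : ∀ i j, P i * P j = if i = j then P i else 0)

include hP

lemma IsFam.P_mul (h : IsFam ρ N P m q) {n : ℕ} (hn : n ≠ m) (i : ℕ) : P n * q i = 0 := by
  rw [← h.left i, ← mul_assoc, hP, if_neg hn, zero_mul]

lemma IsFam.mul_P (h : IsFam ρ N P m q) {n : ℕ} (hn : n ≠ m) (i : ℕ) : q i * P n = 0 := by
  rw [← h.right i, mul_assoc, hP, if_neg (Ne.symm hn), mul_zero]

/-- The modified family consists of orthogonal idempotents. -/
lemma IsFam.mv_mul (h : IsFam ρ N P m q) (i j : ℕ) :
    mv N P m q i * mv N P m q j = if i = j then mv N P m q i else 0 := by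
  unfold mv
  have e1 : P m * (∑ i ∈ Finset.range N, q i) = ∑ i ∈ Finset.range N, q i := by
    rw [Finset.mul_sum]
    exact Finset.sum_congr rfl fun n _ => h.left n
  have e2 : (∑ i ∈ Finset.range N, q i) * P m = ∑ i ∈ Finset.range N, q i := by
    rw [Finset.sum_mul]
    exact Finset.sum_congr rfl fun n _ => h.right n
  by_cases hi : i = m
  · by_cases hj : j = m
    · rw [if_pos hi, if_pos hj, if_pos (hi.trans hj.symm), mul_sub, sub_mul, sub_mul, hP,
        if_pos rfl, e1, e2, h.idem]
      abel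
    · rw [if_pos hi, if_neg hj, if_neg (fun e : i = j => hj (e.symm.trans hi)), mul_add, sub_mul, sub_mul, hP,
        if_neg (Ne.symm hj), h.left, h.sum_mul', Finset.sum_mul,
        Finset.sum_eq_zero fun i _ => h.mul_P hP hj i]
      abel
  · by_cases hj : j = m
    · rw [if_neg hi, if_pos hj, if_neg (fun e : i = j => hi (e.trans hj)), mul_sub, add_mul, add_mul, hP,
        if_neg hi, h.right, h.mul_sum', Finset.mul_sum,
        Finset.sum_eq_zero fun n _ => h.P_mul hP hi n]
      abel
    · rw [if_neg hi, if_neg hj, mul_add, add_mul, add_mul, hP, h.mul, h.P_mul hP hi,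
        h.mul_P hP hj]
      by_cases hij : i = j
      · rw [if_pos hij, if_pos hij, if_pos hij]; abel
      · rw [if_neg hij, if_neg hij, if_neg hij]; abel

omit hP in
lemma IsFam.mv_sum (h : IsFam ρ N P m q) (hm : m < N)
    (hs : ∑ i ∈ Finset.range N, P i = 1) : ∑ i ∈ Finset.range N, mv N P m q i = 1 := by
  have e1 : ∀ n ∈ Finset.range N, mv N P m q n =
      P n + q n - (if n = m then ∑ i ∈ Finset.range N, q i else 0) := by
    intro n _
    unfold mv
    by_cases hn : n = m
    · rw [if_pos hn, if_pos hn, hn, h.self, add_zero]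
    · rw [if_neg hn, if_neg hn, sub_zero]
  rw [Finset.sum_congr rfl e1, Finset.sum_sub_distrib, Finset.sum_add_distrib, hs,
    Finset.sum_ite_eq', if_pos (Finset.mem_range.2 hm)]
  abel

omit hP in
lemma IsFam.mv_rho (h : IsFam ρ N P m q) (n : ℕ) : ρ (mv N P m q n) = ρ (P n) := by
  unfold mv
  by_cases hn : n = m
  · rw [if_pos hn, map_sub, map_sum, Finset.sum_eq_zero fun i _ => h.ker i, sub_zero, hn]
  · rw [if_neg hn, map_add, h.ker, add_zero]

omit hP in
lemma IsFam.mv_out (h : IsFam ρ N P m q) (hm : m < N) (hP0 : ∀ n, N ≤ n → P n = 0) {n : ℕ}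
    (hn : N ≤ n) : mv N P m q n = 0 := by
  unfold mv
  rw [if_neg (by omega), hP0 n hn, h.out n hn, add_zero]

end

/-- **Classification.** If all `P n` with `n ≠ m` are small, then every other lift is conjugate to
one obtained by moving idempotents in the kernel of `ρ` out of `P m`. -/
theorem classify {N : ℕ} {P Q : ℕ → R} {m : ℕ} (hm : m < N)
    (hP : ∀ i j, P i * P j = if i = j then P i else 0) (hP0 : ∀ n, N ≤ n → P n = 0)
    (hPs : ∑ i ∈ Finset.range N, P i = 1)
    (hQ : ∀ i j, Q i * Q j = if i = j then Q i else 0) (hQ0 : ∀ n, N ≤ n → Q n = 0)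
    (hQs : ∑ i ∈ Finset.range N, Q i = 1) (hPQ : ∀ n, ρ (Q n) = ρ (P n))
    (hn : ∀ j, j ≠ m → ∀ x, ρ x = 0 → IsNilpotent (P j * x)) :
    ∃ (s t : R) (q : ℕ → R), s * t = 1 ∧ t * s = 1 ∧ ρ s = 1 ∧ IsFam ρ N P m q ∧
      ∀ n, s * Q n * t = mv N P m q n := by
  obtain ⟨s, t, hst, hts, hs1, h1, -⟩ := ladder ρ P Q hP hQ hPQ ((Finset.range N).erase m)
    (fun j hj x hx => hn j (Finset.ne_of_mem_erase hj) x hx)
  have ht1 : ρ t = 1 := by
    have := congrArg ρ hst
    rwa [map_mul, hs1, one_mul, map_one] at this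
  set G : ℕ → R := fun n => s * Q n * t with hG
  have hGG : ∀ i j, G i * G j = if i = j then G i else 0 := by
    intro i j
    have : G i * G j = s * (Q i * Q j) * t := by
      calc G i * G j = s * Q i * (t * s) * Q j * t := by simp only [hG, mul_assoc]
        _ = s * (Q i * Q j) * t := by rw [hts, mul_one]; simp only [mul_assoc]
    rw [this, hQ]
    split_ifs
    · rfl
    · rw [mul_zero, zero_mul]
  have hGs : ∑ i ∈ Finset.range N, G i = 1 := by
    simp only [hG]
    rw [← Finset.sum_mul, ← Finset.mul_sum, hQs, mul_one, hst]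
  have hG0 : ∀ n, N ≤ n → G n = 0 := fun n hn' => by
    simp only [hG]; rw [hQ0 n hn', mul_zero, zero_mul]
  have hρG : ∀ n, ρ (G n) = ρ (P n) := fun n => by
    simp only [hG]; rw [map_mul, map_mul, hs1, ht1, one_mul, mul_one, hPQ]
  have hPG : ∀ j, j ≠ m → P j * G j = P j ∧ G j * P j = P j := by
    intro j hj
    by_cases hjN : j < N
    · exact h1 j (Finset.mem_erase.2 ⟨hj, Finset.mem_range.2 hjN⟩)
    · rw [hP0 j (by omega), zero_mul, mul_zero]
      exact ⟨rfl, rfl⟩
  have hPGn : ∀ j, j ≠ m → ∀ i, i ≠ j → P j * G i = 0 ∧ G i * P j = 0 := by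
    intro j hj i hij
    constructor
    · rw [← (hPG j hj).1, mul_assoc, hGG, if_neg (Ne.symm hij), mul_zero]
    · rw [← (hPG j hj).2, ← mul_assoc, hGG, if_neg hij, zero_mul]
  set q : ℕ → R := fun n => if n = m then 0 else G n - P n with hq
  have q0 : q m = 0 := by simp [hq]
  have q1 : ∀ n, n ≠ m → q n = G n - P n := fun n hn' => by simp only [hq]; rw [if_neg hn']
  have hPq : ∀ j, j ≠ m → ∀ i, P j * q i = 0 ∧ q i * P j = 0 := by
    intro j hj i
    by_cases hi : i = m
    · rw [hi, q0, mul_zero, zero_mul]; exact ⟨rfl, rfl⟩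
    · rw [q1 i hi]
      by_cases hij : i = j
      · rw [hij, mul_sub, sub_mul, (hPG j hj).1, (hPG j hj).2, hP, if_pos rfl, sub_self]
        exact ⟨rfl, rfl⟩
      · rw [mul_sub, sub_mul, (hPGn j hj i hij).1, (hPGn j hj i hij).2, hP, hP,
          if_neg (Ne.symm hij), if_neg hij, sub_self]
        exact ⟨rfl, rfl⟩
  have hsum : ∀ n, ∑ i ∈ Finset.range N, P i * q n = q n := fun n => by
    rw [← Finset.sum_mul, hPs, one_mul]
  have hsum' : ∀ n, ∑ i ∈ Finset.range N, q n * P i = q n := fun n => by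
    rw [← Finset.mul_sum, hPs, mul_one]
  have hleft : ∀ n, P m * q n = q n := by
    intro n
    conv_rhs => rw [← hsum n]
    rw [Finset.sum_eq_single m]
    · intro j _ hj; exact (hPq j hj n).1
    · intro h; exact absurd (Finset.mem_range.2 hm) h
  have hright : ∀ n, q n * P m = q n := by
    intro n
    conv_rhs => rw [← hsum' n]
    rw [Finset.sum_eq_single m]
    · intro j _ hj; exact (hPq j hj n).2
    · intro h; exact absurd (Finset.mem_range.2 hm) h
  have hqq : ∀ i j, q i * q j = if i = j then q i else 0 := by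
    intro i j
    by_cases hi : i = m
    · rw [hi, q0, zero_mul]
      split_ifs <;> rfl
    · by_cases hj : j = m
      · rw [hj, q0, mul_zero, if_neg hi]
      · have e1 : q i * q j = q i * G j := by
          conv_lhs => rw [q1 j hj]
          rw [mul_sub, (hPq j hj i).2, sub_zero]
        have e2 : q i * G j = G i * G j - P i * G j := by rw [q1 i hi, sub_mul]
        rw [e1, e2, hGG]
        by_cases hij : i = j
        · rw [if_pos hij, if_pos hij, q1 i hi]
          subst hij
          rw [(hPG i hi).1]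
        · rw [if_neg hij, if_neg hij, (hPGn i hi j (Ne.symm hij)).1, sub_zero]
  have hqout : ∀ n, N ≤ n → q n = 0 := by
    intro n hn'
    rw [q1 n (by omega), hG0 n hn', hP0 n hn', sub_zero]
  have hqker : ∀ n, ρ (q n) = 0 := by
    intro n
    by_cases hn' : n = m
    · rw [hn', q0, map_zero]
    · rw [q1 n hn', map_sub, hρG, sub_self]
  refine ⟨s, t, q, hst, hts, hs1, ⟨hqker, hqq, hleft, hright, q0, hqout⟩, fun n => ?_⟩
  unfold mv
  by_cases hn' : n = m
  · rw [if_pos hn', hn']
    have e1 : G m + ∑ i ∈ (Finset.range N).erase m, G i = 1 := by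
      rw [Finset.add_sum_erase _ _ (Finset.mem_range.2 hm), hGs]
    have e2 : P m + ∑ i ∈ (Finset.range N).erase m, P i = 1 := by
      rw [Finset.add_sum_erase _ _ (Finset.mem_range.2 hm), hPs]
    have e3 : q m + ∑ i ∈ (Finset.range N).erase m, q i = ∑ i ∈ Finset.range N, q i := by
      rw [Finset.add_sum_erase _ _ (Finset.mem_range.2 hm)]
    have e4 : ∑ i ∈ (Finset.range N).erase m, q i =
        ∑ i ∈ (Finset.range N).erase m, G i - ∑ i ∈ (Finset.range N).erase m, P i := by
      rw [← Finset.sum_sub_distrib]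
      exact Finset.sum_congr rfl fun i hi => q1 i (Finset.ne_of_mem_erase hi)
    rw [q0, zero_add] at e3
    change G m = P m - _
    rw [← e3, e4, eq_sub_of_add_eq e1, eq_sub_of_add_eq e2]
    abel
  · rw [if_neg hn', q1 n hn']
    change G n = _
    abel

/-- A homologically trivial idempotent can be conjugated into `P m R P m`. -/
theorem phantom_mem {N : ℕ} {P : ℕ → R} {m : ℕ} (hm : m < N)
    (hP : ∀ i j, P i * P j = if i = j then P i else 0)
    (hPs : ∑ i ∈ Finset.range N, P i = 1)
    (hn : ∀ j, j ≠ m → ∀ x, ρ x = 0 → IsNilpotent (P j * x)) {p : R} (hp : p * p = p)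
    (hρ : ρ p = 0) : ∃ s t : R, s * t = 1 ∧ t * s = 1 ∧ ρ s = 1 ∧
      P m * (s * p * t) = s * p * t ∧ (s * p * t) * P m = s * p * t := by
  obtain ⟨s, t, hst, hts, hs1, h1, -⟩ := push_phantom ρ P hP hp hρ ((Finset.range N).erase m)
    (fun j hj x hx => hn j (Finset.ne_of_mem_erase hj) x hx)
  refine ⟨s, t, hst, hts, hs1, ?_, ?_⟩
  · have e1 : ∑ i ∈ Finset.range N, P i * (s * p * t) = s * p * t := by
      rw [← Finset.sum_mul, hPs, one_mul]
    conv_rhs => rw [← e1]
    rw [Finset.sum_eq_single m]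
    · intro j hj hjm; exact (h1 j (Finset.mem_erase.2 ⟨hjm, hj⟩)).1
    · intro h; exact absurd (Finset.mem_range.2 hm) h
  · have e1 : ∑ i ∈ Finset.range N, (s * p * t) * P i = s * p * t := by
      rw [← Finset.mul_sum, hPs, mul_one]
    conv_rhs => rw [← e1]
    rw [Finset.sum_eq_single m]
    · intro j hj hjm; exact (h1 j (Finset.mem_erase.2 ⟨hjm, hj⟩)).2
    · intro h; exact absurd (Finset.mem_range.2 hm) h

/-- If the idempotent `f + p`, `p` an idempotent in the kernel of `ρ` orthogonal to `f`, is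
conjugate to the small idempotent `f`, then `p = 0`. -/
theorem eq_zero_of_conj {f p s t : R} (hst : s * t = 1) (hts : t * s = 1)
    (hn : ∀ x, ρ x = 0 → IsNilpotent (f * x)) (hp : p * p = p) (hρ : ρ p = 0) (hfp : f * p = 0)
    (h : f + p = t * f * s) : p = 0 := by
  have e1 : (f + p) * p = p := by rw [add_mul, hfp, hp, zero_add]
  have e6 : f * (s * p) = s * p := by
    calc f * (s * p) = (s * t) * f * s * p := by rw [hst, one_mul, ← mul_assoc]
      _ = s * ((t * f * s) * p) := by simp only [mul_assoc]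
      _ = s * p := by rw [← h, e1]
  have e2 : IsNilpotent (f * (s * p * t)) := hn _ (by rw [map_mul, map_mul, hρ, mul_zero, zero_mul])
  have e7 : f * (s * p * t) = s * p * t := by rw [← mul_assoc, e6]
  rw [e7] at e2
  have e8 : (s * p * t) * (s * p * t) = s * p * t := by
    calc (s * p * t) * (s * p * t) = s * (p * (t * s) * p) * t := by simp only [mul_assoc]
      _ = s * p * t := by rw [hts, mul_one, hp]
  have e9 : s * p * t = 0 := by
    obtain ⟨n, hn'⟩ := e2
    have e10 : ∀ n : ℕ, (s * p * t) ^ (n + 1) = s * p * t := by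
      intro n
      induction n with
      | zero => rw [zero_add, pow_one]
      | succ n ih => rw [pow_succ, ih, e8]
    rw [← e10 n, pow_succ, hn', zero_mul]
  calc p = (t * s) * p * (t * s) := by rw [hts, one_mul, mul_one]
    _ = t * (s * p * t) * s := by simp only [mul_assoc]
    _ = 0 := by rw [e9, mul_zero, zero_mul]

end Pool.Agent.U3.UC
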