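import Pool.Agent.U3.SD.Defs

/-!
# Moving phantoms between the summands of a Chow-Kunneth decomposition: definitions
-/

set_option autoImplicit false

open CategoryTheory AlgebraicGeometry

universe u v w

namespace Pool.Agent.U3.UC

open Pool.Agent.H914 Pool.Agent.H914.VarClass Pool.Agent.H914.VarClass.Obj Pool.Agent.W492.BB
  Pool.Agent.W550.Corr Pool.Agent.TH133 Pool.Agent.U3.SD

variable {k : Type u} [Field k] {𝒱 : VarClass k}
variable {C : TheoryData.{u, v, 0} 𝒱 ℚ} {K : Type w} [Field K] (H : WeilTheoryData.{u, v, w} C K)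

/-- A phantom of `X`: a homologically trivial idempotent self-correspondence `p` of degree zero,
that is, a direct factor `(X, p)` of the Chow motive of `X` without cohomology. -/
structure IsPhantom {X : 𝒱.Obj} (p : C.A (X.prod X)) : Prop where
  deg : C.Deg X.dim p
  idem : C.comp p p = p
  cl : H.cl p = 0

/-- `X` has no phantoms except zero. -/
def NoPhantoms (X : 𝒱.Obj) : Prop :=
  ∀ p : C.A (X.prod X), IsPhantom H p → p = 0

/-- All phantoms of `X` act as zero on the Chow groups of `X`. -/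
def PhantomsActTrivially (X : 𝒱.Obj) : Prop :=
  ∀ p : C.A (X.prod X), IsPhantom H p → ∀ (i : ℕ) (x : C.A X), C.Deg i x → C.act p x = 0

/-- Mutually orthogonal phantoms `p n`, `n = 0, …, 2 dim X`, `n ≠ m`, which are direct factors of
`h^m(X) = (X, π m)`: `p n ∘ π m = p n = π m ∘ p n`. (`p m = 0`, and `p n = 0` for
`n > 2 dim X`.) -/
structure PhantomFamily {X : 𝒱.Obj} (π : ℕ → C.A (X.prod X)) (m : ℕ)
    (p : ℕ → C.A (X.prod X)) : Prop where
  phantom : ∀ n, IsPhantom H (p n)
  orth : ∀ i j, i ≠ j → C.comp (p i) (p j) = 0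
  left : ∀ n, C.comp (π m) (p n) = p n
  right : ∀ n, C.comp (p n) (π m) = p n
  self : p m = 0
  out : ∀ n, 2 * X.dim < n → p n = 0

/-- For every `n ≠ m` the phantom `p n` is moved from `h^m(X)` to `h^n(X)`: `π n` is replaced by
`π n + p n` for `n ≠ m`, and `π m` by `π m - ∑ p n`. -/
noncomputable def movePhantoms {X : 𝒱.Obj} (π : ℕ → C.A (X.prod X)) (m : ℕ)
    (p : ℕ → C.A (X.prod X)) : ℕ → C.A (X.prod X) :=
  fun n => if n = m then π m - ∑ i ∈ Finset.range (2 * X.dim + 1), p i else π n + p n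

/-- The families `π` and `π'` are conjugate by a unit `s` (with inverse `t`) of the ring of
self-correspondences of degree zero which acts as the identity on the cohomology. -/
def Conjugate {X : 𝒱.Obj} (π π' : ℕ → C.A (X.prod X)) : Prop :=
  ∃ s t : C.A (X.prod X), C.Deg X.dim s ∧ C.Deg X.dim t ∧ C.comp s t = dg C X ∧
    C.comp t s = dg C X ∧ (∀ a : H.A X, H.act (H.cl s) a = a) ∧
    ∀ n, π' n = C.comp (C.comp t (π n)) s

/-- Correspondences which raise the weights with respect to `π` act as zero on the Chow groups: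
for all self-correspondences `γ` of degree zero and all `a < b` the operator `π b ∘ γ ∘ π a` is zero
on `CH^i(X)` for all `i`. -/
def RaisingActsTrivially (C : TheoryData.{u, v, 0} 𝒱 ℚ) {X : 𝒱.Obj} (π : ℕ → C.A (X.prod X)) :
    Prop :=
  ∀ γ : C.A (X.prod X), C.Deg X.dim γ → ∀ a b : ℕ, a < b → ∀ (i : ℕ) (x : C.A X), C.Deg i x →
    C.act (C.comp (C.comp (π a) γ) (π b)) x = 0

end Pool.Agent.U3.UC
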