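import Pool.Agent.U3.SD.Blow
import Pool.Agent.U3.UC.Defs
import Pool.Agent.U3.UC.Classify

/-!
# Classification of the Chow-Kunneth decompositions of a variety
-/

set_option autoImplicit false
set_option linter.unusedSectionVars false

open CategoryTheory AlgebraicGeometry

universe u v w

namespace Pool.Agent.U3.UC

open Pool.Agent.H914 Pool.Agent.H914.VarClass Pool.Agent.H914.VarClass.Obj Pool.Agent.W492.BB
  Pool.Agent.W550.Corr Pool.Agent.TH133 Pool.Agent.U3.SD

variable {k : Type u} [Field k] {𝒱 : VarClass k} {C : TheoryData.{u, v, 0} 𝒱 ℚ}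
  [hC : IsChowProj C] {K : Type w} [Field K]
  {H : WeilTheoryData.{u, v, w} C K} [hH : IsWeilProj H] {X Y Z W : 𝒱.Obj}

lemma coe_sum (s : Finset ℕ) (f : ℕ → cor0 C X) :
    ((∑ i ∈ s, f i : cor0 C X) : Cor C X) = ∑ i ∈ s, (f i : Cor C X) :=
  map_sum (cor0 C X).subtype f s

include hC hH

/-- The family of a Chow-Kunneth decomposition in the ring of degree zero correspondences. -/
noncomputable def fam {π : ℕ → C.A (X.prod X)} (h : IsCK H X π) : ℕ → cor0 C X :=
  fun n => ⟨π n, h.deg n⟩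

lemma fam_coe {π : ℕ → C.A (X.prod X)} (h : IsCK H X π) (n : ℕ) :
    ((fam h n : cor0 C X) : Cor C X) = π n := rfl

lemma fam_mul {π : ℕ → C.A (X.prod X)} (h : IsCK H X π) (i j : ℕ) :
    fam h i * fam h j = if i = j then fam h i else 0 := by
  have h1 := IsCK.mul_eq (P := π) h i j
  by_cases hij : i = j
  · rw [if_pos hij] at h1 ⊢
    exact Subtype.ext h1
  · rw [if_neg hij] at h1 ⊢
    exact Subtype.ext h1

lemma fam_sum {π : ℕ → C.A (X.prod X)} (h : IsCK H X π) :
    ∑ i ∈ Finset.range (2 * X.dim + 1), fam h i = 1 := by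
  apply Subtype.ext
  rw [coe_sum]
  exact h.sum

lemma fam_out {π : ℕ → C.A (X.prod X)} (h : IsCK H X π) (n : ℕ) (hn : 2 * X.dim + 1 ≤ n) :
    fam h n = 0 := Subtype.ext (h.out n (by omega))

lemma fam_rho_eq {π : ℕ → C.A (X.prod X)} (h : IsCK H X π) (n : ℕ) (m : ℤ) (x : H.A X)
    (hx : x ∈ H.gr X m) : rhoH H X (fam h n) x = if m = n then x else 0 :=
  h.actH_eq n m hx

lemma fam_rho {π π' : ℕ → C.A (X.prod X)} (h : IsCK H X π) (h' : IsCK H X π') (n : ℕ) :
    rhoH H X (fam h' n) = rhoH H X (fam h n) := by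
  apply ext_gr H
  intro m x hx
  rw [fam_rho_eq h' n m x hx, fam_rho_eq h n m x hx]

lemma rho_zero_iff (x : cor0 C X) : rhoH H X x = 0 ↔ H.cl (X := X.prod X) (x : Cor C X) = 0 := by
  constructor
  · intro h
    apply hom_zero_of_act
    intro a
    exact LinearMap.congr_fun h a
  · intro h
    rw [rhoH_apply]
    exact cor_eq_zero_of_cl h

lemma rho_one_of {s : cor0 C X} (h : ∀ a : H.A X, H.act (X := X) (Y := X)
    (H.cl (X := X.prod X) (s : Cor C X)) a = a) : rhoH H X s = 1 :=
  LinearMap.ext h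

/-- A family in the ring with the right action on the cohomology is a decomposition. -/
lemma isCK_of_fam {π : ℕ → C.A (X.prod X)} (h : IsCK H X π) (Q : ℕ → cor0 C X)
    (h1 : ∀ i j, Q i * Q j = if i = j then Q i else 0)
    (h2 : ∑ i ∈ Finset.range (2 * X.dim + 1), Q i = 1) (h3 : ∀ n, 2 * X.dim + 1 ≤ n → Q n = 0)
    (h4 : ∀ n, rhoH H X (Q n) = rhoH H X (fam h n)) :
    IsCK H X (fun n => ((Q n : cor0 C X) : Cor C X)) := by
  refine isCK_of (P := fun n => ((Q n : cor0 C X) : Cor C X)) (fun n => (Q n).2)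
    (fun n hn => ?_) (fun i j => ?_) ?_ (fun n m a ha => ?_)
  · rw [h3 n (by omega)]; rfl
  · have h5 := congrArg (fun x : cor0 C X => (x : Cor C X)) (h1 i j)
    by_cases hij : i = j
    · rw [if_pos hij] at h5 ⊢
      exact h5
    · rw [if_neg hij] at h5 ⊢
      exact h5
  · have h5 : ((∑ i ∈ Finset.range (2 * X.dim + 1), Q i : cor0 C X) : Cor C X) = 1 :=
      congrArg (fun x : cor0 C X => (x : Cor C X)) h2
    rw [coe_sum] at h5
    exact h5
  · have h5 := LinearMap.congr_fun (h4 n) a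
    rw [fam_rho_eq h n m a ha] at h5
    exact h5

lemma comp_cor (a b : Cor C X) : C.comp (X := X) (Y := X) (Z := X) a b = b * a := rfl

/-- The two notions of a family of phantoms agree. -/
lemma isFam_of {π p : ℕ → C.A (X.prod X)} (h : IsCK H X π) {m : ℕ}
    (hp : PhantomFamily H π m p) :
    IsFam (rhoH H X) (2 * X.dim + 1) (fam h) m (fun n => ⟨p n, (hp.phantom n).deg⟩) where
  ker n := (rho_zero_iff _).2 (hp.phantom n).cl
  mul i j := by
    apply Subtype.ext
    by_cases hij : i = j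
    · rw [if_pos hij, hij]
      exact (hp.phantom j).idem
    · rw [if_neg hij]
      exact hp.orth j i (Ne.symm hij)
  left n := Subtype.ext (hp.right n)
  right n := Subtype.ext (hp.left n)
  self := Subtype.ext hp.self
  out n hn := Subtype.ext (hp.out n (by omega))

lemma family_of {π : ℕ → C.A (X.prod X)} (h : IsCK H X π) {m : ℕ} {q : ℕ → cor0 C X}
    (hq : IsFam (rhoH H X) (2 * X.dim + 1) (fam h) m q) :
    PhantomFamily H π m (fun n => ((q n : cor0 C X) : Cor C X)) where
  phantom n :=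
    { deg := (q n).2
      idem := by
        have := congrArg (fun x : cor0 C X => (x : Cor C X)) (hq.mul n n)
        rw [if_pos rfl] at this
        exact this
      cl := (rho_zero_iff _).1 (hq.ker n) }
  orth i j hij := by
    have := congrArg (fun x : cor0 C X => (x : Cor C X)) (hq.mul j i)
    rw [if_neg (Ne.symm hij)] at this
    exact this
  left n := congrArg (fun x : cor0 C X => (x : Cor C X)) (hq.right n)
  right n := congrArg (fun x : cor0 C X => (x : Cor C X)) (hq.left n)
  self := congrArg (fun x : cor0 C X => (x : Cor C X)) hq.self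
  out n hn := congrArg (fun x : cor0 C X => (x : Cor C X)) (hq.out n (by omega))

lemma mv_coe {π : ℕ → C.A (X.prod X)} (h : IsCK H X π) (m : ℕ) (q : ℕ → cor0 C X) (n : ℕ) :
    ((mv (2 * X.dim + 1) (fam h) m q n : cor0 C X) : Cor C X) =
      movePhantoms π m (fun n => ((q n : cor0 C X) : Cor C X)) n := by
  unfold mv movePhantoms
  by_cases hn : n = m
  · rw [if_pos hn, if_pos hn]
    have e1 := coe_sum (C := C) (X := X) (Finset.range (2 * X.dim + 1)) q
    change (fam h m : Cor C X) - ((∑ i ∈ Finset.range (2 * X.dim + 1), q i : cor0 C X) : Cor C X) = _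
    rw [e1]
    rfl
  · rw [if_neg hn, if_neg hn]
    rfl

/-- Moving phantoms gives a Chow-Kunneth decomposition. -/
theorem isCK_move {π p : ℕ → C.A (X.prod X)} (h : IsCK H X π) {m : ℕ} (hm : m ≤ 2 * X.dim)
    (hp : PhantomFamily H π m p) : IsCK H X (movePhantoms π m p) := by
  have hF := isFam_of h hp
  have h1 := isCK_of_fam h (mv (2 * X.dim + 1) (fam h) m (fun n => ⟨p n, (hp.phantom n).deg⟩))
    (hF.mv_mul (fam_mul h)) (hF.mv_sum (by omega) (fam_sum h))
    (fun n hn => hF.mv_out (by omega) (fam_out h) hn) hF.mv_rho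
  have e1 : (fun n => ((mv (2 * X.dim + 1) (fam h) m
      (fun n => (⟨p n, (hp.phantom n).deg⟩ : cor0 C X)) n : cor0 C X) : Cor C X)) =
      movePhantoms π m p := by
    funext n
    exact mv_coe h m _ n
  rw [e1] at h1
  exact h1

/-- Smallness in the ring of correspondences. -/
lemma small_of {π : ℕ → C.A (X.prod X)} (h : IsCK H X π) {m : ℕ}
    (hn : ∀ n, n ≤ 2 * X.dim → n ≠ m → HomNil H (π n)) (j : ℕ) (hj : j ≠ m) (x : cor0 C X)
    (hx : rhoH H X x = 0) : IsNilpotent (fam h j * x) := by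
  by_cases hj' : j ≤ 2 * X.dim
  · exact homNil_rho (hn j hj' hj) x hx
  · rw [fam_out h j (by omega), zero_mul]
    exact IsNilpotent.zero

lemma conjugate_iff {π π' : ℕ → Cor C X} : Conjugate H (X := X) π π' ↔
    ∃ s t : cor0 C X, s * t = 1 ∧ t * s = 1 ∧ rhoH H X s = 1 ∧
      ∀ n, π' n = (s : Cor C X) * π n * (t : Cor C X) := by
  constructor
  · rintro ⟨s, t, hs, ht, h1, h2, h3, h4⟩
    refine ⟨⟨s, hs⟩, ⟨t, ht⟩, Subtype.ext h2, Subtype.ext h1, rho_one_of h3, fun n => ?_⟩
    rw [h4 n]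
    exact (@mul_assoc (Cor C X) _ s (π n) t).symm
  · rintro ⟨s, t, h1, h2, h3, h4⟩
    refine ⟨(s : Cor C X), (t : Cor C X), s.2, t.2,
      congrArg (fun x : cor0 C X => (x : Cor C X)) h2,
      congrArg (fun x : cor0 C X => (x : Cor C X)) h1, fun a => LinearMap.congr_fun h3 a,
      fun n => ?_⟩
    rw [h4 n]
    exact mul_assoc (s : Cor C X) (π n) (t : Cor C X)

lemma rho_inv {s t : cor0 C X} (h : s * t = 1) (hs : rhoH H X s = 1) : rhoH H X t = 1 := by
  have := congrArg (rhoH H X) h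
  rwa [map_mul, hs, one_mul, map_one] at this

lemma isCK_conj {π π' : ℕ → Cor C X} (h : IsCK H X π) (hc : Conjugate H (X := X) π π') :
    IsCK H X π' := by
  obtain ⟨s, t, h1, h2, h3, h4⟩ := conjugate_iff.1 hc
  have e1 : π' = fun n => ((s : Cor C X) * π n * (t : Cor C X) : Cor C X) := funext h4
  rw [e1]
  exact IsCK.conj (P := π) h s.2 t.2 (congrArg (fun x : cor0 C X => (x : Cor C X)) h1)
    (congrArg (fun x : cor0 C X => (x : Cor C X)) h2) fun a => LinearMap.congr_fun h3 a

/-- **Classification** of the Chow-Kunneth decompositions. -/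
theorem classification {π : ℕ → C.A (X.prod X)} (h : IsCK H X π) {m : ℕ} (hm : m ≤ 2 * X.dim)
    (hn : ∀ n, n ≤ 2 * X.dim → n ≠ m → HomNil H (π n)) (π' : ℕ → C.A (X.prod X)) :
    IsCK H X π' ↔ ∃ p, PhantomFamily H π m p ∧ Conjugate H (movePhantoms π m p) π' := by
  constructor
  · intro h'
    obtain ⟨s, t, q, h1, h2, h3, h4, h5⟩ := classify (ρ := rhoH H X) (N := 2 * X.dim + 1) (m := m)
      (by omega) (fam_mul h) (fam_out h) (fam_sum h) (fam_mul h') (fam_out h') (fam_sum h')
      (fam_rho h h') (small_of h hn)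
    refine ⟨_, family_of h h4, conjugate_iff.2 ⟨t, s, h2, h1, rho_inv h1 h3, fun n => ?_⟩⟩
    rw [← mv_coe h m q n, ← h5 n]
    have e1 : t * (s * fam h' n * t) * s = fam h' n := by
      calc t * (s * fam h' n * t) * s = (t * s) * fam h' n * (t * s) := by simp only [mul_assoc]
        _ = fam h' n := by rw [h2, one_mul, mul_one]
    exact (congrArg (fun x : cor0 C X => (x : Cor C X)) e1).symm
  · rintro ⟨p, hp, hc⟩
    exact isCK_conj (isCK_move h hm hp) hc

end Pool.Agent.U3.UC
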