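import Pool.Agent.U3.UC.Geo

/-!
# Uniqueness of Chow-Kunneth decompositions and independence of the filtration
-/

set_option autoImplicit false
set_option linter.unusedSectionVars false

open CategoryTheory AlgebraicGeometry

universe u v w

namespace Pool.Agent.U3.UC

open Pool.Agent.H914 Pool.Agent.H914.VarClass Pool.Agent.H914.VarClass.Obj Pool.Agent.W492.BB
  Pool.Agent.W550.Corr Pool.Agent.TH133 Pool.Agent.U3.SD

variable {k : Type u} [Field k] {𝒱 : VarClass k} {C : TheoryData.{u, v, 0} 𝒱 ℚ}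
  [hC : IsChowProj C] {K : Type w} [Field K]
  {H : WeilTheoryData.{u, v, w} C K} [hH : IsWeilProj H] {X Y Z W : 𝒱.Obj}

/-- The family with only one phantom. -/
def single {R : Type*} [Zero R] (n : ℕ) (q : R) : ℕ → R := fun i => if i = n then q else 0

lemma isFam_single {R S : Type*} [Ring R] [Ring S] {ρ : R →+* S} {N : ℕ} {P : ℕ → R} {m : ℕ}
    {q : R} (hq : q * q = q) (hρ : ρ q = 0) (h1 : P m * q = q) (h2 : q * P m = q) {n : ℕ}
    (hnm : n ≠ m) (hn : n < N) : IsFam ρ N P m (single n q) where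
  ker i := by
    unfold single
    split_ifs
    · exact hρ
    · exact map_zero ρ
  mul i j := by
    unfold single
    by_cases hi : i = n
    · by_cases hj : j = n
      · rw [if_pos hi, if_pos hj, if_pos (hi.trans hj.symm), hq]
      · rw [if_neg hj, mul_zero, if_neg (fun e : i = j => hj (e.symm.trans hi))]
    · rw [if_neg hi, zero_mul]
      split_ifs <;> rfl
  left i := by
    unfold single
    split_ifs
    · exact h1
    · exact mul_zero _
  right i := by
    unfold single
    split_ifs
    · exact h2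
    · exact zero_mul _
  self := by
    unfold single
    rw [if_neg (Ne.symm hnm)]
  out i hi := by
    unfold single
    rw [if_neg (by omega)]

lemma mv_single_self {R : Type*} [Ring R] {N : ℕ} {P : ℕ → R} {m : ℕ} {q : R} {n : ℕ}
    (hn : n < N) : mv N P m (single n q) m = P m - q := by
  unfold mv single
  rw [if_pos rfl, Finset.sum_ite_eq', if_pos (Finset.mem_range.2 hn)]

lemma mv_single_at {R : Type*} [Ring R] {N : ℕ} {P : ℕ → R} {m : ℕ} {q : R} {n : ℕ}
    (hnm : n ≠ m) : mv N P m (single n q) n = P n + q := by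
  unfold mv single
  rw [if_neg hnm, if_pos rfl]

lemma mv_single_ne {R : Type*} [Ring R] {N : ℕ} {P : ℕ → R} {m : ℕ} {q : R} {n i : ℕ}
    (him : i ≠ m) (hin : i ≠ n) : mv N P m (single n q) i = P i := by
  unfold mv single
  rw [if_neg him, if_neg hin, add_zero]

include hC hH

/-- The decomposition after moving one phantom. -/
lemma isCK_single {π : ℕ → C.A (X.prod X)} (h : IsCK H X π) {m : ℕ} (hm : m ≤ 2 * X.dim)
    {q : cor0 C X} (hq : q * q = q) (hρ : rhoH H X q = 0) (h1 : fam h m * q = q)
    (h2 : q * fam h m = q) {n : ℕ} (hnm : n ≠ m) (hn : n ≤ 2 * X.dim) :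
    IsCK H X (fun i => ((mv (2 * X.dim + 1) (fam h) m (single n q) i : cor0 C X) : Cor C X)) := by
  have hF := isFam_single (ρ := rhoH H X) (N := 2 * X.dim + 1) hq hρ h1 h2 hnm (by omega)
  exact isCK_of_fam h _ (hF.mv_mul (fam_mul h)) (hF.mv_sum (by omega) (fam_sum h))
    (fun i hi => hF.mv_out (by omega) (fam_out h) hi) hF.mv_rho

lemma Conjugate.symm {π π' : ℕ → Cor C X} (h : Conjugate H (X := X) π π') :
    Conjugate H (X := X) π' π := by
  obtain ⟨s, t, h1, h2, h3, h4⟩ := conjugate_iff.1 h
  refine conjugate_iff.2 ⟨t, s, h2, h1, rho_inv h1 h3, fun n => ?_⟩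
  have e1 : (t : Cor C X) * (s : Cor C X) = 1 :=
    congrArg (fun x : cor0 C X => (x : Cor C X)) h2
  rw [h4 n]
  calc π n = ((t : Cor C X) * (s : Cor C X)) * π n * ((t : Cor C X) * (s : Cor C X)) := by
        rw [e1, one_mul, mul_one]
    _ = _ := by simp only [mul_assoc]

lemma Conjugate.trans {π π' π'' : ℕ → Cor C X} (h : Conjugate H (X := X) π π')
    (h' : Conjugate H (X := X) π' π'') : Conjugate H (X := X) π π'' := by
  obtain ⟨s, t, h1, h2, h3, h4⟩ := conjugate_iff.1 h
  obtain ⟨s', t', k1, k2, k3, k4⟩ := conjugate_iff.1 h'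
  refine conjugate_iff.2 ⟨s' * s, t * t', ?_, ?_, by rw [map_mul, h3, k3, one_mul], fun n => ?_⟩
  · calc s' * s * (t * t') = s' * (s * t) * t' := by simp only [mul_assoc]
      _ = 1 := by rw [h1, mul_one, k1]
  · calc t * t' * (s' * s) = t * (t' * s') * s := by simp only [mul_assoc]
      _ = 1 := by rw [k2, mul_one, h2]
  · rw [k4 n, h4 n]
    change _ = ((s' : Cor C X) * (s : Cor C X)) * π n * ((t : Cor C X) * (t' : Cor C X))
    simp only [mul_assoc]

/-- A homologically trivial class of codimension zero is zero. -/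
lemma zero_of_cl_zero {Z : 𝒱.Obj} {x : C.A Z} (hx : x ∈ C.gr Z 0) (h : H.cl x = 0) : x = 0 := by
  obtain ⟨q, hq⟩ := hC.gr_zero Z x hx
  by_cases hq0 : q = 0
  · rw [hq, hq0, zero_smul]
  · exfalso
    apply hH.one_ne_zero Z
    have h3 : (1 : C.A Z) = x * (q⁻¹ • (1 : C.A Z)) := by
      rw [hq, smul_mul_smul_comm, mul_inv_cancel₀ hq0, one_smul, one_mul]
    rw [← map_one H.cl, h3, map_mul, h, zero_mul]

/-- In dimension zero there are no phantoms. -/
lemma no_phantom_zero (hX : X.dim = 0) {p : cor0 C X} (hp : rhoH H X p = 0) : p = 0 := by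
  have h1 : (p : Cor C X) ∈ C.gr (X.prod X) 0 := by
    have := p.2
    rw [mem_cor0, hX] at this
    exact this
  exact Subtype.ext (zero_of_cl_zero (H := H) h1 ((rho_zero_iff p).1 hp))

/-- **Uniqueness**: all Chow-Kunneth decompositions are conjugate if and only if there are no
phantoms. -/
theorem unique_iff {π : ℕ → C.A (X.prod X)} (h : IsCK H X π) {m : ℕ} (hm : m ≤ 2 * X.dim)
    (hn : ∀ n, n ≤ 2 * X.dim → n ≠ m → HomNil H (π n)) :
    UniqueUpToConjugation H X ↔ NoPhantoms H X := by
  constructor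
  · intro hU p hp
    set p0 : cor0 C X := ⟨p, hp.deg⟩ with hp0
    have hpp : p0 * p0 = p0 := Subtype.ext hp.idem
    have hpρ : rhoH H X p0 = 0 := (rho_zero_iff p0).2 hp.cl
    suffices p0 = 0 from congrArg (fun x : cor0 C X => (x : Cor C X)) this
    by_cases hX : X.dim = 0
    · exact no_phantom_zero hX hpρ
    obtain ⟨s, t, h1, h2, h3, h4, h5⟩ := phantom_mem (ρ := rhoH H X) (N := 2 * X.dim + 1) (m := m)
      (by omega) (fam_mul h) (fam_sum h) (small_of h hn) hpp hpρ
    set q : cor0 C X := s * p0 * t with hq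
    have hqq : q * q = q := by
      calc q * q = s * p0 * (t * s) * p0 * t := by rw [hq]; simp only [mul_assoc]
        _ = s * (p0 * p0) * t := by rw [h2, mul_one]; simp only [mul_assoc]
        _ = q := by rw [hpp]
    have hqρ : rhoH H X q = 0 := by rw [hq, map_mul, map_mul, hpρ, mul_zero, zero_mul]
    obtain ⟨n, hnm, hn2⟩ : ∃ n, n ≠ m ∧ n ≤ 2 * X.dim := by
      by_cases hm0 : m = 0
      · exact ⟨1, by omega, by omega⟩
      · exact ⟨0, by omega, by omega⟩
    have hCK := isCK_single h hm hqq hqρ h4 h5 hnm hn2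
    obtain ⟨s', t', k1, k2, k3, k4⟩ := conjugate_iff.1 (hU π _ h hCK)
    have e1 : fam h n + q = s' * fam h n * t' := by
      apply Subtype.ext
      rw [← mv_single_at (N := 2 * X.dim + 1) (P := fam h) (q := q) hnm]
      exact k4 n
    have hq0 : q = 0 := by
      refine eq_zero_of_conj k2 k1 (fun x hx => small_of h hn n hnm x hx) hqq hqρ ?_ e1
      rw [← h4, ← mul_assoc, fam_mul, if_neg hnm, zero_mul]
    calc p0 = (t * s) * p0 * (t * s) := by rw [h2, one_mul, mul_one]
      _ = t * q * s := by rw [hq]; simp only [mul_assoc]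
      _ = 0 := by rw [hq0, mul_zero, zero_mul]
  · intro hN
    have hmove : ∀ p, PhantomFamily H π m p → movePhantoms π m p = π := by
      intro p hp
      funext n
      have hp0 : ∀ n, p n = 0 := fun n => hN _ (hp.phantom n)
      unfold movePhantoms
      by_cases hnm : n = m
      · rw [if_pos hnm, Finset.sum_eq_zero fun i _ => hp0 i, sub_zero, hnm]
      · rw [if_neg hnm, hp0, add_zero]
    have hall : ∀ π', IsCK H X π' → Conjugate H π π' := by
      intro π' h'
      obtain ⟨p, hp, hc⟩ := (classification h hm hn π').1 h'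
      rwa [hmove p hp] at hc
    intro π₁ π₂ h₁ h₂
    exact Conjugate.trans (H := H) (Conjugate.symm (H := H) (hall π₁ h₁)) (hall π₂ h₂)

end Pool.Agent.U3.UC
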