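import Pool.Agent.U3.UC.Geo2

/-!
# Independence of the filtration
-/

set_option autoImplicit false
set_option linter.unusedSectionVars false

open CategoryTheory AlgebraicGeometry

universe u v w

namespace Pool.Agent.U3.UC

open Pool.Agent.H914 Pool.Agent.H914.VarClass Pool.Agent.H914.VarClass.Obj Pool.Agent.W492.BB
  Pool.Agent.W550.Corr Pool.Agent.TH133 Pool.Agent.U3.SD

variable {k : Type u} [Field k] {𝒱 : VarClass k} {C : TheoryData.{u, v, 0} 𝒱 ℚ}
  [hC : IsChowProj C] {K : Type w} [Field K]
  {H : WeilTheoryData.{u, v, w} C K} [hH : IsWeilProj H] {X Y Z W : 𝒱.Obj}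

/-- The ring homomorphism to the operators on the Chow groups. -/
noncomputable def sg (C : TheoryData.{u, v, 0} 𝒱 ℚ) [hC : IsChowProj C] (Y : 𝒱.Obj) :
    cor0 C Y →+* Module.End ℚ (C.A Y) := (actC C Y).comp (cor0 C Y).toSubring.subtype

lemma sg_apply (x : cor0 C Y) (z : C.A Y) :
    sg C Y x z = C.act (X := Y) (Y := Y) (x : Cor C Y) z := rfl

lemma sg_mem (a : cor0 C X) {i : ℤ} {x : C.A X} (hx : x ∈ C.gr X i) : sg C X a x ∈ C.gr X i :=
  act_mem0 C a.2 hx

lemma sg_mul (a b : cor0 C X) (x : C.A X) : sg C X (a * b) x = sg C X a (sg C X b x) := by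
  rw [map_mul]; rfl

lemma sg_one (x : C.A X) : sg C X 1 x = x := by rw [map_one]; rfl

include hC hH

lemma mem_fil {π : ℕ → C.A (X.prod X)} (h : IsCK H X π) (i n : ℕ) (x : C.A X) :
    x ∈ ckFil C π i n ↔ x ∈ C.gr X i ∧ ∀ j, 2 * i + 1 - n ≤ j → sg C X (fam h j) x = 0 :=
  h.mem_ckFil i n x

lemma sg_sum_one {π : ℕ → C.A (X.prod X)} (h : IsCK H X π) (x : C.A X) :
    ∑ a ∈ Finset.range (2 * X.dim + 1), sg C X (fam h a) x = x := by
  rw [← LinearMap.sum_apply, ← map_sum, fam_sum, sg_one]

/-- Phantoms acting trivially, in the ring. -/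
lemma phantoms_iff : PhantomsActTrivially H X ↔ ∀ p : cor0 C X, p * p = p → rhoH H X p = 0 →
    ∀ (i : ℕ) (x : C.A X), x ∈ C.gr X i → sg C X p x = 0 := by
  constructor
  · intro h p hp hρ i x hx
    exact h (p : Cor C X) ⟨p.2, congrArg (fun x : cor0 C X => (x : Cor C X)) hp,
      (rho_zero_iff p).1 hρ⟩ i x hx
  · intro h p hp i x hx
    exact h ⟨p, hp.deg⟩ (Subtype.ext hp.idem) ((rho_zero_iff _).2 hp.cl) i x hx

/-- Weight-raising correspondences acting trivially, in the ring. -/
lemma raising_iff {π : ℕ → C.A (X.prod X)} (h : IsCK H X π) : RaisingActsTrivially C π ↔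
    ∀ (γ : cor0 C X) (a b : ℕ), a < b → ∀ (i : ℕ) (x : C.A X), x ∈ C.gr X i →
      sg C X (fam h b * γ * fam h a) x = 0 := by
  constructor
  · intro h1 γ a b hab i x hx
    have := h1 (γ : Cor C X) γ.2 a b hab i x hx
    rw [mul_assoc]
    exact this
  · intro h1 γ hγ a b hab i x hx
    have := h1 ⟨γ, hγ⟩ a b hab i x hx
    rw [mul_assoc] at this
    exact this

/-- If weight-raising correspondences act trivially then all correspondences of degree zero
preserve the filtration. -/
lemma fil_stable {π : ℕ → C.A (X.prod X)} (h : IsCK H X π) (hR : RaisingActsTrivially C π)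
    (γ : cor0 C X) {i n : ℕ} {x : C.A X} (hx : x ∈ ckFil C π i n) :
    sg C X γ x ∈ ckFil C π i n := by
  rw [mem_fil h] at hx ⊢
  refine ⟨sg_mem γ hx.1, fun j hj => ?_⟩
  have e1 : sg C X (fam h j) (sg C X γ x) =
      ∑ a ∈ Finset.range (2 * X.dim + 1), sg C X (fam h j * γ * fam h a) x := by
    conv_lhs => rw [← sg_sum_one h x]
    rw [map_sum, map_sum]
    apply Finset.sum_congr rfl
    intro a _
    rw [sg_mul, sg_mul]
  rw [e1]
  apply Finset.sum_eq_zero
  intro a _
  by_cases ha : 2 * i + 1 - n ≤ a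
  · rw [sg_mul, hx.2 a ha, map_zero]
  · exact (raising_iff h).1 hR γ a j (by omega) i x hx.1

/-- If phantoms act trivially, the filtration of every Chow-Kunneth decomposition is the image of
that of `π` under a unit. -/
lemma fil_image {π : ℕ → C.A (X.prod X)} (h : IsCK H X π) {m : ℕ} (hm : m ≤ 2 * X.dim)
    (hn : ∀ n, n ≤ 2 * X.dim → n ≠ m → HomNil H (π n)) (hph : PhantomsActTrivially H X)
    {π' : ℕ → C.A (X.prod X)} (h' : IsCK H X π') : ∃ s t : cor0 C X, s * t = 1 ∧ t * s = 1 ∧
      rhoH H X s = 1 ∧ rhoH H X t = 1 ∧ ∀ (i n : ℕ) (x : C.A X),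
        x ∈ ckFil C π' i n ↔ sg C X s x ∈ ckFil C π i n := by
  obtain ⟨s, t, q, h1, h2, h3, h4, h5⟩ := classify (ρ := rhoH H X) (N := 2 * X.dim + 1) (m := m)
    (by omega) (fam_mul h) (fam_out h) (fam_sum h) (fam_mul h') (fam_out h') (fam_sum h')
    (fam_rho h h') (small_of h hn)
  have hq : ∀ n (i : ℕ) (x : C.A X), x ∈ C.gr X i → sg C X (q n) x = 0 := fun n i x hx => by
    have := h4.mul n n
    rw [if_pos rfl] at this
    exact phantoms_iff.1 hph (q n) this (h4.ker n) i x hx
  have hmv : ∀ n (i : ℕ) (x : C.A X), x ∈ C.gr X i →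
      sg C X (mv (2 * X.dim + 1) (fam h) m q n) x = sg C X (fam h n) x := by
    intro n i x hx
    unfold mv
    by_cases hnm : n = m
    · rw [if_pos hnm, map_sub, LinearMap.sub_apply, map_sum, LinearMap.sum_apply,
        Finset.sum_eq_zero fun j _ => hq j i x hx, sub_zero, hnm]
    · rw [if_neg hnm, map_add, LinearMap.add_apply, hq n i x hx, add_zero]
  have hs : ∀ x, sg C X t (sg C X s x) = x := fun x => by rw [← sg_mul, h2, sg_one]
  have ht : ∀ x, sg C X s (sg C X t x) = x := fun x => by rw [← sg_mul, h1, sg_one]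
  refine ⟨s, t, h1, h2, h3, rho_inv h1 h3, fun i n x => ?_⟩
  rw [mem_fil h, mem_fil h']
  have key : ∀ (j : ℕ), x ∈ C.gr X i →
      (sg C X (fam h' j) x = 0 ↔ sg C X (fam h j) (sg C X s x) = 0) := by
    intro j hx
    have e1 : sg C X s (sg C X (fam h' j) x) = sg C X (fam h j) (sg C X s x) := by
      rw [← hmv j i _ (sg_mem s hx), ← h5 j, ← sg_mul, ← sg_mul]
      congr 1
      rw [mul_assoc (s * fam h' j) t s, h2, mul_one]
    rw [← e1]
    constructor
    · intro e2; rw [e2, map_zero]
    · intro e2
      rw [← hs (sg C X (fam h' j) x), e2, map_zero]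
  constructor
  · rintro ⟨hx, hx'⟩
    exact ⟨sg_mem s hx, fun j hj => (key j hx).1 (hx' j hj)⟩
  · rintro ⟨hx, hx'⟩
    have hx1 : x ∈ C.gr X i := by rw [← hs x]; exact sg_mem t hx
    exact ⟨hx1, fun j hj => (key j hx1).2 (hx' j hj)⟩

/-- A phantom acts trivially as soon as its conjugates in `h^m(X)` do. -/
lemma phantoms_of_middle {π : ℕ → C.A (X.prod X)} (h : IsCK H X π) {m : ℕ}
    (hm : m ≤ 2 * X.dim) (hn : ∀ n, n ≤ 2 * X.dim → n ≠ m → HomNil H (π n))
    (hq : ∀ q : cor0 C X, q * q = q → rhoH H X q = 0 → fam h m * q = q → q * fam h m = q →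
      ∀ (i : ℕ) (x : C.A X), x ∈ C.gr X i → sg C X q x = 0) : PhantomsActTrivially H X := by
  rw [phantoms_iff]
  intro p0 hpp hpρ i x hx
  obtain ⟨s, t, h1, h2, h3, h4, h5⟩ := phantom_mem (ρ := rhoH H X) (N := 2 * X.dim + 1) (m := m)
    (by omega) (fam_mul h) (fam_sum h) (small_of h hn) hpp hpρ
  set q : cor0 C X := s * p0 * t with hqd
  have hqq : q * q = q := by
    calc q * q = s * p0 * (t * s) * p0 * t := by rw [hqd]; simp only [mul_assoc]
      _ = s * (p0 * p0) * t := by rw [h2, mul_one]; simp only [mul_assoc]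
      _ = q := by rw [hpp]
  have hqρ : rhoH H X q = 0 := by rw [hqd, map_mul, map_mul, hpρ, mul_zero, zero_mul]
  have e1 : p0 = t * q * s := by
    calc p0 = (t * s) * p0 * (t * s) := by rw [h2, one_mul, mul_one]
      _ = t * q * s := by rw [hqd]; simp only [mul_assoc]
  rw [e1, sg_mul, sg_mul, hq q hqq hqρ h4 h5 i _ (sg_mem s hx), map_zero]

/-- **Independence of the filtration.** -/
theorem murreC_iff {π : ℕ → C.A (X.prod X)} (h : IsCK H X π) {m : ℕ} (hm : m ≤ 2 * X.dim)
    (hn : ∀ n, n ≤ 2 * X.dim → n ≠ m → HomNil H (π n)) :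
    MurreC H X ↔ PhantomsActTrivially H X ∧ RaisingActsTrivially C π := by
  constructor
  · intro hMC
    constructor
    · apply phantoms_of_middle h hm hn
      intro q hqq hqρ h4 h5 i x hx
      by_cases hX : X.dim = 0
      · rw [no_phantom_zero hX hqρ, map_zero, LinearMap.zero_apply]
      -- the class `q x` lies in `h^m`
      have hPq : ∀ j, j ≠ m → sg C X (fam h j) (sg C X q x) = 0 := by
        intro j hj
        rw [← sg_mul, ← h4, ← mul_assoc, fam_mul, if_neg hj, zero_mul, map_zero,
          LinearMap.zero_apply]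
      have hqqx : sg C X q (sg C X q x) = sg C X q x := by rw [← sg_mul, hqq]
      have hPm : sg C X (fam h m) (sg C X q x) = sg C X q x := by rw [← sg_mul, h4]
      by_cases hm0 : m = 0
      · -- move `q` to the degree one
        have hCK := isCK_single h hm hqq hqρ h4 h5 (n := 1) (by omega) (by omega)
        have e1 : sg C X q x ∈ ckFil C π i (2 * i) := by
          rw [mem_fil h]
          exact ⟨sg_mem q hx, fun j hj => hPq j (by omega)⟩
        rw [hMC π _ h hCK, mem_fil hCK] at e1
        have e2 := e1.2 1 (by omega)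
        have e3 : fam hCK 1 = fam h 1 + q :=
          Subtype.ext (congrArg (fun x : cor0 C X => (x : Cor C X))
            (mv_single_at (N := 2 * X.dim + 1) (P := fam h) (q := q) (by omega : 1 ≠ m)))
        rw [e3, map_add, LinearMap.add_apply, hPq 1 (by omega), zero_add, hqqx] at e2
        exact e2
      · -- move `q` to the degree zero
        have hCK := isCK_single h hm hqq hqρ h4 h5 (n := 0) (by omega) (by omega)
        have e1 : sg C X q x ∈ ckFil C (fun i => ((mv (2 * X.dim + 1) (fam h) m (single 0 q) i :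
            cor0 C X) : Cor C X)) i (2 * i) := by
          rw [mem_fil hCK]
          refine ⟨sg_mem q hx, fun j hj => ?_⟩
          change sg C X (mv (2 * X.dim + 1) (fam h) m (single 0 q) j) (sg C X q x) = 0
          by_cases hjm : j = m
          · rw [hjm, mv_single_self (by omega), map_sub, LinearMap.sub_apply, hPm, hqqx, sub_self]
          · rw [mv_single_ne hjm (by omega)]
            exact hPq j hjm
        rw [← hMC π _ h hCK, mem_fil h] at e1
        have e2 := e1.2 m (by omega)
        rwa [hPm] at e2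
    · rw [raising_iff h]
      intro γ a b hab i x hx
      have hB0 : MurreB0 H X := murreB0_of_C0 X fun π π' h h' i => hMC π π' h h' i 0
      by_cases ha : 2 * i < a
      · have e1 : sg C X (fam h a) x = 0 := (murreB0_iff X).1 hB0 π h i a x hx ha
        rw [sg_mul, e1, map_zero]
      · set γ' : cor0 C X := fam h b * γ * fam h a with hγ
        have hsq : γ' * γ' = 0 := by
          have e1 : γ' * γ' = fam h b * γ * (fam h a * fam h b) * γ * fam h a := by
            rw [hγ]; simp only [mul_assoc]
          rw [e1, fam_mul, if_neg (by omega), mul_zero, zero_mul, zero_mul]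
        have hρ : rhoH H X γ' = 0 := by
          apply ext_gr H
          intro l y hy
          rw [hγ, map_mul, map_mul, Module.End.mul_apply, Module.End.mul_apply,
            fam_rho_eq h a l y hy, LinearMap.zero_apply]
          split_ifs with hl
          · have e1 : rhoH H X γ y ∈ H.gr X l := actH_mem0 γ.2 hy
            rw [fam_rho_eq h b l _ e1, if_neg (by omega)]
          · rw [map_zero, map_zero]
        have e1 : (1 + γ') * (1 - γ') = 1 := by
          rw [mul_sub, mul_one, add_mul, one_mul, hsq]; abel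
        have e2 : (1 - γ') * (1 + γ') = 1 := by
          rw [mul_add, mul_one, sub_mul, one_mul, hsq]; abel
        have hcj : Conjugate H π (fun n => (((1 + γ') * fam h n * (1 - γ') : cor0 C X) :
            Cor C X)) :=
          conjugate_iff.2 ⟨1 + γ', 1 - γ', e1, e2, by rw [map_add, map_one, hρ, add_zero],
            fun n => rfl⟩
        have hCK := isCK_conj h hcj
        -- the class `u (π_a x)`
        have e3 : sg C X ((1 + γ') * fam h a) x ∈ ckFil C π i (2 * i - a) := by
          rw [hMC π _ h hCK, mem_fil hCK]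
          refine ⟨sg_mem _ hx, fun j hj => ?_⟩
          change sg C X ((1 + γ') * fam h j * (1 - γ')) (sg C X ((1 + γ') * fam h a) x) = 0
          rw [← sg_mul]
          have e4 : (1 + γ') * fam h j * (1 - γ') * ((1 + γ') * fam h a) = 0 := by
            calc (1 + γ') * fam h j * (1 - γ') * ((1 + γ') * fam h a) =
                  (1 + γ') * fam h j * ((1 - γ') * (1 + γ')) * fam h a := by
                  simp only [mul_assoc]
              _ = (1 + γ') * (fam h j * fam h a) := by rw [e2, mul_one, mul_assoc]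
              _ = 0 := by rw [fam_mul, if_neg (by omega), mul_zero]
          rw [e4, map_zero, LinearMap.zero_apply]
        rw [mem_fil h] at e3
        have e5 := e3.2 b (by omega)
        rw [← sg_mul] at e5
        have e6 : fam h b * ((1 + γ') * fam h a) = γ' := by
          have e7 : fam h b * fam h a = 0 := by rw [fam_mul, if_neg (by omega)]
          have e8 : fam h b * γ' = γ' := by
            rw [hγ, ← mul_assoc, ← mul_assoc, fam_mul, if_pos rfl]
          have e9 : γ' * fam h a = γ' := by
            rw [hγ, mul_assoc, fam_mul, if_pos rfl]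
          rw [add_mul, one_mul, mul_add, e7, zero_add, ← mul_assoc, e8, e9]
        rw [e6] at e5
        exact e5
  · rintro ⟨hph, hR⟩
    have key : ∀ π', IsCK H X π' → ∀ i n : ℕ, ckFil C π' i n = ckFil C π i n := by
      intro π' h' i n
      obtain ⟨s, t, h1, h2, -, -, h3⟩ := fil_image h hm hn hph h'
      ext x
      rw [h3]
      constructor
      · intro hx
        have e1 := fil_stable h hR t hx
        rwa [← sg_mul, h2, sg_one] at e1
      · exact fun hx => fil_stable h hR s hx
    intro π₁ π₂ h₁ h₂ i n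
    rw [key π₁ h₁, key π₂ h₂]

end Pool.Agent.U3.UC
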