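import Mathlib

/-!
# Lifts of families of orthogonal idempotents which are finite-dimensional outside one degree

`R` is a ring with a homomorphism `ρ` to a ring `S`; think of correspondences acting on the
cohomology. An idempotent `f` is small if `f x` is nilpotent for all `x` with `ρ x = 0`.
-/

set_option autoImplicit false
set_option linter.unusedSectionVars false
set_option linter.unusedSimpArgs false

universe u v

namespace Pool.Agent.U3.UC

variable {R : Type u} [Ring R] {S : Type v} [Ring S] (ρ : R →+* S)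

/-- **One step.** The small idempotent `f` lies under the idempotent `g` modulo the kernel of `ρ`;
then `f` lies under a conjugate of `g` by a unit `s` with `ρ s = 1`, which fixes all elements `h`
orthogonal to `f` and commuting with `g`. -/
theorem step {f g : R} (hf : f * f = f) (hg : g * g = g) (hfg : ρ f * ρ g = ρ f)
    (hgf : ρ g * ρ f = ρ f) (hn : ∀ x, ρ x = 0 → IsNilpotent (f * x)) :
    ∃ s t : R, s * t = 1 ∧ t * s = 1 ∧ ρ s = 1 ∧ f * (s * g * t) = f ∧ (s * g * t) * f = f ∧
      ∀ h, h * f = 0 → f * h = 0 → h * g = g * h → s * h = h ∧ h * s = h := by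
  set y : R := f - f * g * f with hy
  have hρy : ρ y = 0 := by rw [hy, map_sub, map_mul, map_mul, hfg, ← map_mul, hf, sub_self]
  have hfy : f * y = y := by rw [hy, mul_sub, hf, ← mul_assoc, ← mul_assoc, hf]
  have hyf : y * f = y := by rw [hy, sub_mul, hf, mul_assoc, hf]
  have hny : IsNilpotent y := by rw [← hfy]; exact hn y hρy
  obtain ⟨v, hv1, hv2⟩ : ∃ v : R, (1 - y) * v = 1 ∧ v * (1 - y) = 1 := by
    obtain ⟨w, hw⟩ := hny.isUnit_one_sub
    exact ⟨((w⁻¹ : Rˣ) : R), by rw [← hw, Units.mul_inv], by rw [← hw, Units.inv_mul]⟩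
  have hcomm : (1 - y) * f = f * (1 - y) := by rw [sub_mul, mul_sub, hyf, hfy, one_mul, mul_one]
  have hvf : v * f = f * v := by
    calc v * f = v * (f * ((1 - y) * v)) := by rw [hv1, mul_one]
      _ = v * ((1 - y) * f) * v := by rw [hcomm]; simp only [mul_assoc]
      _ = f * v := by rw [← mul_assoc v, hv2, one_mul]
  have hρv : ρ v = 1 := by
    have := congrArg ρ hv1
    rwa [map_mul, map_sub, map_one, hρy, sub_zero, one_mul] at this
  have hfgf : f * (1 - y) = f * g * f := by
    rw [hy, mul_sub, mul_sub, mul_one, hf, ← mul_assoc, ← mul_assoc, hf]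
    abel
  set c : R := f * v with hc
  have fc : f * c = c := by rw [hc, ← mul_assoc, hf]
  have cf : c * f = c := by rw [hc, mul_assoc, hvf, ← mul_assoc, hf]
  have cgf : c * g * f = f := by
    calc c * g * f = (v * f) * g * f := by rw [hc, hvf]
      _ = v * (f * g * f) := by simp only [mul_assoc]
      _ = v * ((1 - y) * f) := by rw [← hfgf, hcomm]
      _ = f := by rw [← mul_assoc, hv2, one_mul]
  have fgc : f * g * c = f := by
    calc f * g * c = (f * g * f) * v := by rw [hc]; simp only [mul_assoc]
      _ = f * ((1 - y) * v) := by rw [← hfgf, mul_assoc]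
      _ = f := by rw [hv1, mul_one]
  have cgc : c * g * c = c := by
    calc c * g * c = (c * g * f) * c := by rw [mul_assoc (c * g) f c, fc]
      _ = c := by rw [cgf, fc]
  -- rewriting rules
  have r1 : ∀ x, f * (f * x) = f * x := fun x => by rw [← mul_assoc, hf]
  have r2 : ∀ x, g * (g * x) = g * x := fun x => by rw [← mul_assoc, hg]
  have r3 : ∀ x, f * (c * x) = c * x := fun x => by rw [← mul_assoc, fc]
  have r4 : ∀ x, c * (f * x) = c * x := fun x => by rw [← mul_assoc, cf]
  have r5 : ∀ x, c * (g * (f * x)) = f * x := fun x => by rw [← mul_assoc, ← mul_assoc, cgf]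
  have r6 : ∀ x, f * (g * (c * x)) = f * x := fun x => by rw [← mul_assoc, ← mul_assoc, fgc]
  have r7 : ∀ x, c * (g * (c * x)) = c * x := fun x => by rw [← mul_assoc, ← mul_assoc, cgc]
  have r5' : c * (g * f) = f := by rw [← mul_assoc, cgf]
  have r6' : f * (g * c) = f := by rw [← mul_assoc, fgc]
  have r7' : c * (g * c) = c := by rw [← mul_assoc, cgc]
  set s : R := f * g + (1 - f) * (1 - g * c) * (1 - g * c * g) with hs
  set t : R := g * c + (1 - g * c * g) * (1 - f) with ht
  have hst : s * t = 1 := by
    rw [hs, ht]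
    simp only [mul_add, add_mul, mul_sub, sub_mul, mul_one, one_mul, mul_assoc, hf, hg, fc, cf, r1,
      r2, r3, r4, r5, r6, r7, r5', r6', r7']
    abel
  have hts : t * s = 1 := by
    rw [hs, ht]
    simp only [mul_add, add_mul, mul_sub, sub_mul, mul_one, one_mul, mul_assoc, hf, hg, fc, cf, r1,
      r2, r3, r4, r5, r6, r7, r5', r6', r7']
    abel
  have fs : f * s = f * g := by
    rw [hs]
    simp only [mul_add, add_mul, mul_sub, sub_mul, mul_one, one_mul, mul_assoc, hf, hg, fc, cf, r1,
      r2, r3, r4, r5, r6, r7, r5', r6', r7']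
    abel
  have ft : f * g * t = f := by
    rw [ht]
    simp only [mul_add, add_mul, mul_sub, sub_mul, mul_one, one_mul, mul_assoc, hf, hg, fc, cf, r1,
      r2, r3, r4, r5, r6, r7, r5', r6', r7']
    abel
  have tf : t * f = g * c := by
    rw [ht]
    simp only [mul_add, add_mul, mul_sub, sub_mul, mul_one, one_mul, mul_assoc, hf, hg, fc, cf, r1,
      r2, r3, r4, r5, r6, r7, r5', r6', r7']
    abel
  have sgc : s * (g * c) = f := by
    rw [hs]
    simp only [mul_add, add_mul, mul_sub, sub_mul, mul_one, one_mul, mul_assoc, hf, hg, fc, cf, r1,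
      r2, r3, r4, r5, r6, r7, r5', r6', r7']
    abel
  refine ⟨s, t, hst, hts, ?_, ?_, ?_, ?_⟩
  · have ρc : ρ c = ρ f := by rw [hc, map_mul, hρv, mul_one]
    have ρgc : ρ g * ρ c = ρ f := by rw [ρc, hgf]
    have hff : ρ f * ρ f = ρ f := by rw [← map_mul, hf]
    have a1 : ρ (g * c) = ρ f := by rw [map_mul, ρgc]
    have a2 : ρ (g * c * g) = ρ f := by rw [map_mul, a1, hfg]
    have a3 : ρ s = ρ f * ρ g + (1 - ρ f) * (1 - ρ (g * c)) * (1 - ρ (g * c * g)) := by
      rw [hs]; simp only [map_add, map_mul, map_sub, map_one]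
    rw [a3, a1, a2, hfg]
    simp only [mul_sub, sub_mul, mul_one, one_mul, hff]
    abel
  · calc f * (s * g * t) = (f * s) * g * t := by simp only [mul_assoc]
      _ = f * (g * g) * t := by rw [fs]; simp only [mul_assoc]
      _ = f := by rw [hg, ft]
  · calc s * g * t * f = s * (g * (t * f)) := by simp only [mul_assoc]
      _ = s * (g * c) := by rw [tf, r2]
      _ = f := sgc
  · intro h h1 h2 h3
    have hc1 : h * c = 0 := by rw [hc, ← mul_assoc, h1, zero_mul]
    have hc2 : c * h = 0 := by rw [← hvf, mul_assoc, h2, mul_zero]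
    have h4 : h * (g * c) = 0 := by rw [← mul_assoc, h3, mul_assoc, hc1, mul_zero]
    have h5 : c * (g * h) = 0 := by rw [← h3, ← mul_assoc, hc2, zero_mul]
    have h6 : f * (g * h) = 0 := by rw [← h3, ← mul_assoc, h2, zero_mul]
    have h7 : ∀ x, h * (g * (c * x)) = 0 := fun x => by
      rw [← mul_assoc g, ← mul_assoc, h4, zero_mul]
    have h8 : ∀ x, h * (f * x) = 0 := fun x => by rw [← mul_assoc, h1, zero_mul]
    constructor
    · rw [hs]
      simp only [add_mul, mul_sub, sub_mul, mul_one, one_mul, mul_assoc, h2, h5, h6, hc2, mul_zero,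
        sub_zero, add_zero, zero_add]
    · rw [hs]
      simp only [mul_add, mul_sub, sub_mul, mul_one, one_mul, mul_assoc, h1, h4, h7, h8,
        sub_zero, add_zero, zero_add, sub_self]

/-- **The ladder.** Two families of orthogonal idempotents with the same image under `ρ`; the first
one is small on the finite set `T`. -/
theorem ladder {ι : Type*} [DecidableEq ι] (P Q : ι → R)
    (hP : ∀ i j, P i * P j = if i = j then P i else 0)
    (hQ : ∀ i j, Q i * Q j = if i = j then Q i else 0) (hPQ : ∀ i, ρ (Q i) = ρ (P i))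
    (T : Finset ι) (hn : ∀ j ∈ T, ∀ x, ρ x = 0 → IsNilpotent (P j * x)) :
    ∃ s t : R, s * t = 1 ∧ t * s = 1 ∧ ρ s = 1 ∧
      (∀ j ∈ T, P j * (s * Q j * t) = P j ∧ (s * Q j * t) * P j = P j) ∧
      ∀ h, (∀ j ∈ T, h * P j = 0 ∧ P j * h = 0 ∧ h * Q j = 0 ∧ Q j * h = 0) →
        s * h = h ∧ h * s = h := by
  induction T using Finset.induction_on with
  | empty =>
    exact ⟨1, 1, by rw [mul_one], by rw [mul_one], map_one ρ, by simp, fun h _ => by simp⟩
  | insert k T hk ih =>
    obtain ⟨s, t, hst, hts, hs1, h1, h2⟩ := ih fun j hj => hn j (Finset.mem_insert_of_mem hj)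
    have ht1 : ρ t = 1 := by
      have := congrArg ρ hst
      rwa [map_mul, hs1, one_mul, map_one] at this
    set g : R := s * Q k * t with hg
    have hgg : g * g = g := by
      calc g * g = s * Q k * (t * s) * Q k * t := by rw [hg]; simp only [mul_assoc]
        _ = s * (Q k * Q k) * t := by rw [hts, mul_one]; simp only [mul_assoc]
        _ = g := by rw [hQ, if_pos rfl]
    have hρg : ρ g = ρ (P k) := by rw [hg, map_mul, map_mul, hs1, ht1, one_mul, mul_one, hPQ]
    have hkk : P k * P k = P k := by rw [hP, if_pos rfl]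
    have hρk : ρ (P k) * ρ (P k) = ρ (P k) := by rw [← map_mul, hkk]
    obtain ⟨s', t', k1, k2, k3, k4, k5, k6⟩ := step ρ hkk hgg (by rw [hρg, hρk])
      (by rw [hρg, hρk]) (hn k (Finset.mem_insert_self k T))
    have hjg : ∀ j ∈ T, P j * g = 0 ∧ g * P j = 0 := by
      intro j hj
      have hjk : j ≠ k := fun h => hk (h ▸ hj)
      have e1 : (s * Q j * t) * g = 0 := by
        calc (s * Q j * t) * g = s * Q j * (t * s) * Q k * t := by
              rw [hg]; simp only [mul_assoc]
          _ = s * (Q j * Q k) * t := by rw [hts, mul_one]; simp only [mul_assoc]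
          _ = 0 := by rw [hQ, if_neg hjk, mul_zero, zero_mul]
      have e2 : g * (s * Q j * t) = 0 := by
        calc g * (s * Q j * t) = s * Q k * (t * s) * Q j * t := by
              rw [hg]; simp only [mul_assoc]
          _ = s * (Q k * Q j) * t := by rw [hts, mul_one]; simp only [mul_assoc]
          _ = 0 := by rw [hQ, if_neg (Ne.symm hjk), mul_zero, zero_mul]
      constructor
      · rw [← (h1 j hj).1, mul_assoc, e1, mul_zero]
      · rw [← (h1 j hj).2, ← mul_assoc, e2, zero_mul]
    have hfix : ∀ j ∈ T, s' * P j = P j ∧ P j * s' = P j := by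
      intro j hj
      have hjk : j ≠ k := fun h => hk (h ▸ hj)
      exact k6 (P j) (by rw [hP, if_neg hjk]) (by rw [hP, if_neg (Ne.symm hjk)])
        (by rw [(hjg j hj).1, (hjg j hj).2])
    have hfix' : ∀ j ∈ T, t' * P j = P j ∧ P j * t' = P j := by
      intro j hj
      obtain ⟨e1, e2⟩ := hfix j hj
      constructor
      · conv_lhs => rw [← e1]
        rw [← mul_assoc, k2, one_mul]
      · conv_lhs => rw [← e2]
        rw [mul_assoc, k1, mul_one]
    have hconj : ∀ x : R, s' * s * x * (t * t') = s' * (s * x * t) * t' := fun x => by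
      simp only [mul_assoc]
    refine ⟨s' * s, t * t', ?_, ?_, by rw [map_mul, hs1, k3, one_mul], ?_, ?_⟩
    · calc s' * s * (t * t') = s' * (s * t) * t' := by simp only [mul_assoc]
        _ = 1 := by rw [hst, mul_one, k1]
    · calc t * t' * (s' * s) = t * (t' * s') * s := by simp only [mul_assoc]
        _ = 1 := by rw [k2, mul_one, hts]
    · intro j hj
      rw [hconj]
      rcases Finset.mem_insert.1 hj with rfl | hj
      · exact ⟨k4, k5⟩
      · constructor
        · have e1 : P j * (s' * (s * Q j * t) * t') = (P j * s') * (s * Q j * t) * t' := by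
            simp only [mul_assoc]
          rw [e1, (hfix j hj).2, (h1 j hj).1, (hfix' j hj).2]
        · have e1 : s' * (s * Q j * t) * t' * P j = s' * ((s * Q j * t) * (t' * P j)) := by
            simp only [mul_assoc]
          rw [e1, (hfix' j hj).1, (h1 j hj).2, (hfix j hj).1]
    · intro h hh
      obtain ⟨e1, e2⟩ := h2 h fun j hj => hh j (Finset.mem_insert_of_mem hj)
      obtain ⟨e3, e4, e5, e6⟩ := hh k (Finset.mem_insert_self k T)
      have e7 : t * h = h := by
        conv_lhs => rw [← e1]
        rw [← mul_assoc, hts, one_mul]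
      have e8 : h * g = 0 := by
        rw [hg, ← mul_assoc, ← mul_assoc, e2, e5, zero_mul]
      have e9 : g * h = 0 := by
        rw [hg, mul_assoc, e7, mul_assoc, e6, mul_zero]
      obtain ⟨e10, e11⟩ := k6 h e3 e4 (by rw [e8, e9])
      exact ⟨by rw [mul_assoc, e1, e10], by rw [← mul_assoc, e11, e2]⟩

/-- **Phantoms** can be conjugated away from the small idempotents. -/
theorem push_phantom {ι : Type*} [DecidableEq ι] (P : ι → R)
    (hP : ∀ i j, P i * P j = if i = j then P i else 0) {p : R} (hp : p * p = p) (hρ : ρ p = 0)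
    (T : Finset ι) (hn : ∀ j ∈ T, ∀ x, ρ x = 0 → IsNilpotent (P j * x)) :
    ∃ s t : R, s * t = 1 ∧ t * s = 1 ∧ ρ s = 1 ∧
      (∀ j ∈ T, P j * (s * p * t) = 0 ∧ (s * p * t) * P j = 0) ∧
      ∀ h, (∀ j ∈ T, h * P j = 0 ∧ P j * h = 0) → h * p = p * h → s * h = h ∧ h * s = h := by
  induction T using Finset.induction_on with
  | empty =>
    exact ⟨1, 1, by rw [mul_one], by rw [mul_one], map_one ρ, by simp, fun h _ _ => by simp⟩
  | insert k T hk ih =>
    obtain ⟨s, t, hst, hts, hs1, h1, h2⟩ := ih fun j hj => hn j (Finset.mem_insert_of_mem hj)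
    have ht1 : ρ t = 1 := by
      have := congrArg ρ hst
      rwa [map_mul, hs1, one_mul, map_one] at this
    set p' : R := s * p * t with hp'
    have hpp : p' * p' = p' := by
      calc p' * p' = s * p * (t * s) * p * t := by rw [hp']; simp only [mul_assoc]
        _ = s * (p * p) * t := by rw [hts, mul_one]; simp only [mul_assoc]
        _ = p' := by rw [hp]
    have hρp : ρ p' = 0 := by rw [hp', map_mul, map_mul, hρ, mul_zero, zero_mul]
    have hgg : (1 - p') * (1 - p') = 1 - p' := by
      rw [mul_sub, sub_mul, sub_mul, mul_one, one_mul, hpp]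
      simp
    have hρg : ρ (1 - p') = 1 := by rw [map_sub, map_one, hρp, sub_zero]
    have hkk : P k * P k = P k := by rw [hP, if_pos rfl]
    obtain ⟨s', t', k1, k2, k3, k4, k5, k6⟩ := step ρ hkk hgg (by rw [hρg, mul_one])
      (by rw [hρg, one_mul]) (hn k (Finset.mem_insert_self k T))
    have hconj' : s' * (1 - p') * t' = 1 - s' * p' * t' := by
      rw [mul_sub, sub_mul, mul_one, k1]
    rw [hconj', mul_sub, mul_one, sub_eq_self] at k4
    rw [hconj', sub_mul, one_mul, sub_eq_self] at k5
    have hfix : ∀ j ∈ T, s' * P j = P j ∧ P j * s' = P j := by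
      intro j hj
      have hjk : j ≠ k := fun h => hk (h ▸ hj)
      exact k6 (P j) (by rw [hP, if_neg hjk]) (by rw [hP, if_neg (Ne.symm hjk)])
        (by rw [mul_sub, sub_mul, mul_one, one_mul, (h1 j hj).1, (h1 j hj).2])
    have hfix' : ∀ j ∈ T, t' * P j = P j ∧ P j * t' = P j := by
      intro j hj
      obtain ⟨e1, e2⟩ := hfix j hj
      constructor
      · conv_lhs => rw [← e1]
        rw [← mul_assoc, k2, one_mul]
      · conv_lhs => rw [← e2]
        rw [mul_assoc, k1, mul_one]
    have hconj : s' * s * p * (t * t') = s' * p' * t' := by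
      rw [hp']; simp only [mul_assoc]
    refine ⟨s' * s, t * t', ?_, ?_, by rw [map_mul, hs1, k3, one_mul], ?_, ?_⟩
    · calc s' * s * (t * t') = s' * (s * t) * t' := by simp only [mul_assoc]
        _ = 1 := by rw [hst, mul_one, k1]
    · calc t * t' * (s' * s) = t * (t' * s') * s := by simp only [mul_assoc]
        _ = 1 := by rw [k2, mul_one, hts]
    · intro j hj
      rw [hconj]
      rcases Finset.mem_insert.1 hj with rfl | hj
      · exact ⟨k4, k5⟩
      · constructor
        · calc P j * (s' * p' * t') = (P j * s') * p' * t' := by simp only [mul_assoc]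
            _ = 0 := by rw [(hfix j hj).2, (h1 j hj).1, zero_mul]
        · calc s' * p' * t' * P j = s' * (p' * (t' * P j)) := by simp only [mul_assoc]
            _ = 0 := by rw [(hfix' j hj).1, (h1 j hj).2, mul_zero]
    · intro h hh hhp
      obtain ⟨e1, e2⟩ := h2 h (fun j hj => hh j (Finset.mem_insert_of_mem hj)) hhp
      obtain ⟨e3, e4⟩ := hh k (Finset.mem_insert_self k T)
      have e7 : t * h = h := by
        conv_lhs => rw [← e1]
        rw [← mul_assoc, hts, one_mul]
      have e7' : h * t = h := by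
        conv_lhs => rw [← e2]
        rw [mul_assoc, hst, mul_one]
      have e8 : h * p' = h * p := by
        calc h * p' = (h * s) * p * t := by rw [hp']; simp only [mul_assoc]
          _ = h * p := by rw [e2, hhp, mul_assoc, e7']
      have e9 : p' * h = h * p := by
        calc p' * h = s * (p * (t * h)) := by rw [hp']; simp only [mul_assoc]
          _ = h * p := by rw [e7, ← hhp, ← mul_assoc, e1]
      obtain ⟨e10, e11⟩ := k6 h e3 e4 (by rw [mul_sub, sub_mul, mul_one, one_mul, e8, e9])
      exact ⟨by rw [mul_assoc, e1, e10], by rw [← mul_assoc, e11, e2]⟩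

end Pool.Agent.U3.UC
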